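import Pool.Agent.Helper32.NO.OrbW
import Pool.Agent.Helper63.NO.Wc

/-!
# The base of the induction
-/

set_option autoImplicit false
open scoped BigOperators MonoidAlgebra
open Classical

namespace Pool.Agent.Helper32.NO

open Pool.Agent.Helper36.NB Pool.Agent.Helper44.S3 Pool.Agent.Helper32.ND
open Pool.Agent.Helper63.NO (exists_nat)

variable {O : ValuationSubring ℂ} {G : Type} [Group G] [Fintype G]

/-- An idempotent with coefficient `0` at `1` is zero. -/
theorem idem_coeff_zero (y : MonoidAlgebra ℂ G) (hy : y * y = y) (h0 : y.coeff 1 = 0) :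
    y = 0 := by
  obtain ⟨I⟩ := exists_irrData G
  have h := E0aux.regular I y
  rw [h0, mul_zero] at h
  choose m hm using fun a => chi_idem I a y hy
  have h1 : ∑ a, I.d a * m a = 0 := by
    have h3 : ((∑ a, I.d a * m a : ℕ) : ℂ) = 0 := by
      push_cast
      rw [← h]
      exact Finset.sum_congr rfl fun a _ => by rw [hm]
    exact_mod_cast h3
  apply I.equiv.injective
  rw [map_zero]
  funext a
  have h3 : I.d a * m a = 0 := (Finset.sum_eq_zero_iff.1 h1) a (Finset.mem_univ _)
  have h4 : m a = 0 := by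
    rcases Nat.mul_eq_zero.1 h3 with h | h
    · exact absurd h (I.pos a).ne'
    · exact h
  apply F1aux.mat_zero
  · rw [← Pi.mul_apply, ← map_mul, hy]
  · have h5 := hm a
    rw [h4, Nat.cast_zero] at h5
    exact h5

theorem one_mem_cset (t : G) : (1 : G) ∈ cset t := by
  rw [mem_cset, one_mul, mul_one]

theorem inv_mem_cset {t c : G} (hc : c ∈ cset t) : c⁻¹ ∈ cset t := by
  rw [mem_cset] at hc ⊢
  calc c⁻¹ * t = c⁻¹ * (t * c) * c⁻¹ := by group
    _ = c⁻¹ * (c * t) * c⁻¹ := by rw [hc]
    _ = t * c⁻¹ := by group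

theorem mul_mem_cset {t c d : G} (hc : c ∈ cset t) (hd : d ∈ cset t) : c * d ∈ cset t := by
  rw [mem_cset] at hc hd ⊢
  rw [mul_assoc, hd, ← mul_assoc, hc, mul_assoc]

theorem sum_cset_inv {M : Type} [AddCommMonoid M] (t : G) (f : G → M) :
    ∑ c ∈ cset t, f c⁻¹ = ∑ c ∈ cset t, f c :=
  Finset.sum_bij (fun c _ => c⁻¹) (fun _ hc => inv_mem_cset hc) (fun _ _ _ _ h => inv_injective h)
    (fun c hc => ⟨c⁻¹, inv_mem_cset hc, inv_inv c⟩) (fun _ _ => rfl)

theorem cset_sum_mul (R : Type) [CommRing R] (t : G) :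
    (∑ c ∈ cset t, el R c) * (∑ c ∈ cset t, el R c) =
      ((cset t).card : R) • ∑ c ∈ cset t, el R c := by
  have h3 : ∀ c ∈ cset t, el R c * (∑ c ∈ cset t, el R c) = ∑ c ∈ cset t, el R c := by
    intro c hc
    rw [Finset.mul_sum]
    simp only [← el_mul]
    refine Finset.sum_bij (fun d _ => c * d) ?_ ?_ ?_ ?_
    · intro d hd
      exact mul_mem_cset hc hd
    · intro d _ d' _ h
      exact mul_left_cancel h
    · intro d hd
      exact ⟨c⁻¹ * d, mul_mem_cset (inv_mem_cset hc) hd, by group⟩
    · intro d _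
      rfl
  rw [Finset.sum_mul, Finset.sum_congr rfl h3, Finset.sum_const, ← Nat.cast_smul_eq_nsmul R]

theorem mul_cset_coeff {R : Type} [CommRing R] (x : MonoidAlgebra R G) (t g : G) :
    (x * ∑ c ∈ cset t, el R c).coeff g = ∑ c ∈ cset t, x.coeff (g * c) := by
  rw [Finset.mul_sum, MonoidAlgebra.coeff_sum, Finset.sum_apply']
  rw [← sum_cset_inv t (fun c => x.coeff (g * c))]
  refine Finset.sum_congr rfl fun c _ => ?_
  rw [mul_el_coeff]

/-- If the sum over the centraliser of `t` is zero, then so are the sums over its cosets. -/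
theorem sum_coset_zero (e : MonoidAlgebra O G) (ee : e * e = e) (ec : ∀ a, a * e = e * a)
    (t : G) (h0 : ∑ s ∈ cset t, (e.coeff s : ℂ) = 0) (g : G) :
    ∑ c ∈ cset t, e.coeff (g * c) = 0 := by
  set F : MonoidAlgebra ℂ G := ∑ c ∈ cset t, el ℂ c with hF
  have hcard0 : ((cset t).card : ℂ) ≠ 0 :=
    Nat.cast_ne_zero.2 (Finset.card_pos.2 ⟨1, one_mem_cset t⟩).ne'
  have hFF : F * F = ((cset t).card : ℂ) • F := cset_sum_mul ℂ t
  have hCee : toC O G e * toC O G e = toC O G e := by rw [← map_mul, ee]
  have hCec : ∀ y, y * toC O G e = toC O G e * y := by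
    apply E0aux.central_of_el
    intro g
    rw [← toC_el O g, ← map_mul, ← map_mul, ec]
  have hidem : (((cset t).card : ℂ)⁻¹ • (toC O G e * F)) * (((cset t).card : ℂ)⁻¹ •
      (toC O G e * F)) = ((cset t).card : ℂ)⁻¹ • (toC O G e * F) := by
    have h1 : (toC O G e * F) * (toC O G e * F) = ((cset t).card : ℂ) • (toC O G e * F) := by
      calc (toC O G e * F) * (toC O G e * F) = toC O G e * (F * toC O G e) * F := by
            rw [mul_assoc, mul_assoc, mul_assoc]
        _ = (toC O G e * toC O G e) * (F * F) := by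
            rw [hCec F, mul_assoc, mul_assoc, mul_assoc]
        _ = ((cset t).card : ℂ) • (toC O G e * F) := by
            rw [hCee, hFF, mul_smul_comm]
    rw [smul_mul_smul_comm, h1, smul_smul, mul_assoc, inv_mul_cancel₀ hcard0, mul_one]
  have hco : ∀ g : G, (toC O G e * F).coeff g = ((∑ c ∈ cset t, e.coeff (g * c) : O) : ℂ) := by
    intro g
    rw [hF, mul_cset_coeff]
    push_cast
    exact Finset.sum_congr rfl fun c _ => toC_apply O e _
  have hz : ((cset t).card : ℂ)⁻¹ • (toC O G e * F) = 0 := by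
    apply idem_coeff_zero _ hidem
    rw [MonoidAlgebra.coeff_smul, Finsupp.smul_apply, hco]
    push_cast
    simp only [one_mul]
    rw [h0, smul_zero]
  have hz' : toC O G e * F = 0 := (smul_eq_zero.1 hz).resolve_left (inv_ne_zero hcard0)
  have h5 := hco g
  rw [hz', MonoidAlgebra.coeff_zero, Finsupp.zero_apply] at h5
  exact Subtype.ext h5.symm

/-- The square lemma for the idempotent `q`. -/
theorem sq_q {k : Type} [Field k] [CharP k 2] (q : MonoidAlgebra k G) (hq : q * q = q) (t : G)
    (ht : t * t = 1) (hqt : psi t q = q) (v : G) (hv : v * v = 1) :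
    q.coeff (v * t) = (∑ g ∈ tr v t, q.coeff g) ^ 2 := by
  have hti : t⁻¹ = t := inv_eq_of_mul_eq_one_left ht
  have hvi : v⁻¹ = v := inv_eq_of_mul_eq_one_left hv
  have h1 : el k t * inv' q = q * el k t := by
    have h3 := congrArg (fun z => z * el k t) hqt
    simp only [psi_apply] at h3
    rw [mul_assoc, el_inv_mul_el, mul_one] at h3
    exact h3
  have h3 : q * (el k t * inv' q) = q * el k t := by
    rw [h1, ← mul_assoc, hq]
  have h4 := congrArg (fun z => z.coeff v) h3
  simp only [mul_el_coeff] at h4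
  rw [hti] at h4
  rw [← h4, coeff_mul_sum']
  simp only [el_mul_coeff, inv'_coeff]
  have hterm : ∀ h : G, q.coeff h * q.coeff (t⁻¹ * (h⁻¹ * v))⁻¹ =
      q.coeff h * q.coeff (v * h * t) := by
    intro h
    congr 2
    rw [mul_inv_rev, mul_inv_rev, inv_inv, inv_inv, hvi]
  rw [Finset.sum_congr rfl fun h _ => hterm h]
  rw [← Finset.sum_filter_add_sum_filter_not Finset.univ (fun g : G => g * t = v * g)
    (fun g => q.coeff g * q.coeff (v * g * t))]
  have h5 : ∑ g ∈ Finset.univ.filter (fun g : G => ¬ g * t = v * g),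
      q.coeff g * q.coeff (v * g * t) = 0 := by
    refine Finset.sum_involution (fun g _ => v * g * t) ?_ ?_ ?_ ?_
    · intro g _
      have e1 : v * (v * g * t) * t = g := by
        calc v * (v * g * t) * t = (v * v) * g * (t * t) := by group
          _ = g := by rw [hv, ht, one_mul, mul_one]
      rw [e1, mul_comm (q.coeff (v * g * t))]
      exact CharTwo.add_self_eq_zero _
    · intro g hg _ h
      rw [Finset.mem_filter] at hg
      apply hg.2
      calc g * t = v * g * t * t := by rw [h]
        _ = v * g * (t * t) := by group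
        _ = v * g := by rw [ht, mul_one]
    · intro g hg
      rw [Finset.mem_filter] at hg ⊢
      refine ⟨Finset.mem_univ _, fun h => hg.2 ?_⟩
      have h6 : v * g = g * t := by
        calc v * g = v * g * (t * t) := by rw [ht, mul_one]
          _ = v * g * t * t := by group
          _ = v * (v * g * t) := h
          _ = (v * v) * g * t := by group
          _ = g * t := by rw [hv, one_mul]
      exact h6.symm
    · intro g _
      calc v * (v * g * t) * t = (v * v) * g * (t * t) := by group
        _ = g := by rw [hv, ht, one_mul, mul_one]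
  rw [h5, add_zero]
  have h6 : ∑ g ∈ Finset.univ.filter (fun g : G => g * t = v * g),
      q.coeff g * q.coeff (v * g * t) = ∑ g ∈ tr v t, (q.coeff g) ^ 2 := by
    refine Finset.sum_congr rfl fun g hg => ?_
    have hg2 : g * t = v * g := mem_tr.1 hg
    rw [sq, ← hg2, mul_assoc, ht, mul_one]
  rw [h6]
  exact (sum_pow_char 2 _ _).symm

/-- P7: the base `D = 1` -/
theorem base (h2 : (2 : O) ∈ IsLocalRing.maximalIdeal O) {D : Subgroup G} {t : G}
    {e : MonoidAlgebra O G} {S : SimpleQuot (toK O G e)} {q : MonoidAlgebra (resK O) G}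
    (hL : Lev O D t e S q) (hD : D = ⊥) (j : MonoidAlgebra O G) (hj : j * j = j)
    (hje : j * e = j) (hj1 : (S.ρ (toK O G j)).rank = 1) (w : G → ℕ) (hw : ClassFun w) (M : ℕ)
    (hM : wsum O w j = M) : w t ≤ M := by
  have hch : CharP (resK O) 2 := resK_charP O h2
  have htt : t * t = 1 := by
    have h1 := hL.tt
    rw [hD] at h1
    exact Subgroup.mem_bot.1 h1
  have hti : t⁻¹ = t := inv_eq_of_mul_eq_one_left htt
  have hcj : ∀ g v : G, IsConj t (g * v * g⁻¹) ↔ IsConj t v := fun g v =>
    ⟨fun h => h.trans (isConj_iff.2 ⟨g⁻¹, by group⟩),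
      fun h => h.trans (isConj_iff.2 ⟨g, rfl⟩)⟩
  have hc1 : ClassFun (fun v : G => if IsConj t v then 1 else 0) := fun g v =>
    if_congr (hcj g v) rfl rfl
  have hc2 : ClassFun (fun v : G => if IsConj t v then 0 else w v) := fun g v =>
    if_congr (hcj g v) rfl (hw g v)
  have hsplit : wsum O w j = (w t : ℂ) * wsum O (fun v : G => if IsConj t v then 1 else 0) j +
      wsum O (fun v : G => if IsConj t v then 0 else w v) j := by
    unfold wsum
    rw [Finset.mul_sum, ← Finset.sum_add_distrib]
    refine Finset.sum_congr rfl fun h _ => ?_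
    have h1 : wc w h = w t * wc (fun v : G => if IsConj t v then 1 else 0) h +
        wc (fun v : G => if IsConj t v then 0 else w v) h := by
      unfold wc
      rw [Finset.mul_sum, ← Finset.sum_add_distrib]
      refine Finset.sum_congr rfl fun v _ => ?_
      by_cases hv : v * h = h * v
      · rw [if_pos hv, if_pos hv, if_pos hv]
        change w v = w t * (if IsConj t v then 1 else 0) + (if IsConj t v then 0 else w v)
        by_cases hc : IsConj t v
        · rw [if_pos hc, if_pos hc, mul_one, add_zero]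
          obtain ⟨g, hg⟩ := isConj_iff.1 hc
          rw [← hg, hw]
        · rw [if_neg hc, if_neg hc, mul_zero, zero_add]
      · rw [if_neg hv, if_neg hv, if_neg hv, mul_zero]
    rw [h1]
    push_cast
    ring
  obtain ⟨M1, hM1⟩ := exists_nat O _ hc1 j hj
  obtain ⟨M2, hM2⟩ := exists_nat O _ hc2 j hj
  have hMM : M = w t * M1 + M2 := by
    rw [hM, hM1, hM2] at hsplit
    exact_mod_cast hsplit
  have hM1' : M1 ≠ 0 := by
    intro h0
    rw [h0, Nat.cast_zero] at hM1
    -- the sum over the centraliser of `t`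
    have h1 : Orb O e S.n (⊥ : Subgroup G) ⊥ t := by
      apply orb_of_wsum h2 e hL.ee hL.ec S j hj hje hj1
      rw [hM1]
      have h3 : Nat.card {y : G // y ∈ (⊥ : Subgroup G) ∧ y ∉ (⊥ : Subgroup G) ∧
          IsConj t y} = 0 := by
        rw [Nat.card_eq_zero]
        left
        exact ⟨fun y => y.2.2.1 y.2.1⟩
      rw [h3, Nat.cast_zero]
    rw [orb_iff] at h1
    have h3 : Nat.card {g : G // g⁻¹ * t * g ∈ (⊥ : Subgroup G) ∧
        g⁻¹ * t * g ∉ (⊥ : Subgroup G)} = 0 := by
      rw [Nat.card_eq_zero]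
      left
      exact ⟨fun y => y.2.2 y.2.1⟩
    rw [h3, Nat.cast_zero, mul_zero] at h1
    have h4 : ∑ s ∈ cset t, (e.coeff s : ℂ) = 0 :=
      (mul_eq_zero.1 h1).resolve_left (Nat.cast_ne_zero.2 Nat.card_pos.ne')
    have h5 := sum_coset_zero e hL.ee hL.ec t h4
    -- reduction
    have h6 : toK O G e * ∑ c ∈ cset t, el (resK O) c = 0 := by
      ext g
      rw [mul_cset_coeff, MonoidAlgebra.coeff_zero, Finsupp.zero_apply]
      simp only [toK_apply]
      rw [← map_sum, h5, map_zero]
    have h7 : q * ∑ c ∈ cset t, el (resK O) c = 0 := by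
      rw [← hL.qe, mul_assoc, h6, mul_zero]
    have h8 : ∀ v : G, ∑ g ∈ tr v t, q.coeff g = 0 := by
      intro v
      rcases Finset.eq_empty_or_nonempty (tr v t) with h | ⟨g0, hg0⟩
      · rw [h, Finset.sum_empty]
      · rw [sum_tr _ hg0]
        have h9 := congrArg (fun z => z.coeff g0) h7
        simp only [mul_cset_coeff, MonoidAlgebra.coeff_zero, Finsupp.zero_apply] at h9
        exact h9
    have h10 : ∀ g : G, t⁻¹ * g⁻¹ * t = g → q.coeff g = 0 := by
      intro g hg
      have hv : (g * t) * (g * t) = 1 := by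
        have h11 : t * g⁻¹ * t = g := by rw [hti] at hg; exact hg
        calc g * t * (g * t) = g * (t * g * t) := by group
          _ = g * (t * g⁻¹ * t)⁻¹ := by
              rw [mul_inv_rev, mul_inv_rev, inv_inv, hti]
              simp only [mul_assoc]
          _ = 1 := by rw [h11, mul_inv_cancel]
      have h11 := sq_q q hL.qq t htt hL.qt (g * t) hv
      rw [h8, mul_assoc, htt, mul_one] at h11
      rw [h11]
      exact zero_pow two_ne_zero
    -- the trace
    apply hL.lam
    have hq : q = ∑ g : G, q.coeff g • el (resK O) g := by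
      ext g
      rw [MonoidAlgebra.coeff_sum, Finset.sum_apply', Finset.sum_eq_single g]
      · simp [el]
      · intro b _ hb
        simp [el, Finsupp.single_apply, hb]
      · intro h
        exact absurd (Finset.mem_univ _) h
    rw [hq, map_sum]
    refine Finset.sum_involution (fun g _ => t⁻¹ * g⁻¹ * t) ?_ ?_ ?_ ?_
    · intro g _
      have e1 : q.coeff (t⁻¹ * g⁻¹ * t) = q.coeff g := by
        have h11 := congrArg (fun z => z.coeff g) hL.qt
        simp only [psi_apply, mul_el_coeff, el_mul_coeff, inv'_coeff] at h11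
        rw [← h11]
        congr 1
        group
      have e3 : S.lam (el (resK O) (t⁻¹ * g⁻¹ * t)) = S.lam (el (resK O) g) := by
        rw [el_mul, S.lam_comm, ← el_mul, ← mul_assoc, mul_inv_cancel, one_mul, ← inv'_el]
        rw [SimpleQuot.lam_apply, SimpleQuot.lam_apply]
        exact trace_inv (toK O G e) (by rw [← toK_inv', hL.er]) S _
      rw [map_smul, map_smul, e1, e3]
      exact CharTwo.add_self_eq_zero _
    · intro g _ hg h
      apply hg
      rw [h10 g h, zero_smul, map_zero]
    · intro g _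
      exact Finset.mem_univ _
    · intro g _
      calc t⁻¹ * (t⁻¹ * g⁻¹ * t)⁻¹ * t = (t * t)⁻¹ * g * (t * t) := by group
        _ = g := by rw [htt, inv_one, one_mul, mul_one]
  have h1 : w t ≤ w t * M1 := Nat.le_mul_of_pos_right _ (Nat.pos_of_ne_zero hM1')
  omega

end Pool.Agent.Helper32.NO
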