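import Pool.Agent.Helper32.NO.Defs

/-!
# The local data of `C_G(d)`
-/

set_option autoImplicit false
open scoped BigOperators MonoidAlgebra
open Classical

namespace Pool.Agent.Helper32.NO

open Pool.Agent.Helper36.NB Pool.Agent.Helper44.S3 Pool.Agent.Helper32.ND

section iso

variable {k : Type} [Field k] {A B : Type} [Group A] [Group B] (φ : A ≃* B)

theorem block_congr {b : MonoidAlgebra k A} (hb : IsBlock b) :
    IsBlock (MonoidAlgebra.domCongr k k φ b) := by
  refine ⟨?_, ?_, ?_, ?_⟩
  · intro h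
    apply hb.1
    exact (map_eq_zero_iff _ (MonoidAlgebra.domCongr k k φ).injective).1 h
  · rw [← map_mul, hb.2.1]
  · intro a
    obtain ⟨a', rfl⟩ := (MonoidAlgebra.domCongr k k φ).surjective a
    rw [← map_mul, ← map_mul, hb.2.2.1]
  · intro f hf hfc
    obtain ⟨f', rfl⟩ := (MonoidAlgebra.domCongr k k φ).surjective f
    rw [← map_mul] at hf
    have h1 := (MonoidAlgebra.domCongr k k φ).injective hf
    rcases hb.2.2.2 f' h1 (fun a => (MonoidAlgebra.domCongr k k φ).injective (by
      rw [map_mul, map_mul]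
      exact hfc _)) with h | h
    · left
      rw [← map_mul, h, map_zero]
    · right
      rw [← map_mul, h]

theorem simple_congr {b : MonoidAlgebra k A} (S : SimpleQuot b) :
    Nonempty (SimpleQuot (MonoidAlgebra.domCongr k k φ b)) := by
  refine ⟨{
    n := S.n
    ρ := S.ρ.comp (MonoidAlgebra.domCongr k k φ).symm.toAlgHom
    pos := S.pos
    surj := ?_
    one := ?_
    nil := ?_ }⟩
  · intro M
    obtain ⟨a, ha⟩ := S.surj M
    refine ⟨MonoidAlgebra.domCongr k k φ a, ?_⟩
    change S.ρ ((MonoidAlgebra.domCongr k k φ).symm (MonoidAlgebra.domCongr k k φ a)) = M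
    rw [AlgEquiv.symm_apply_apply, ha]
  · change S.ρ ((MonoidAlgebra.domCongr k k φ).symm (MonoidAlgebra.domCongr k k φ b)) = 1
    rw [AlgEquiv.symm_apply_apply, S.one]
  · intro a ha
    obtain ⟨a', rfl⟩ := (MonoidAlgebra.domCongr k k φ).surjective a
    have h1 : S.ρ ((MonoidAlgebra.domCongr k k φ).symm (MonoidAlgebra.domCongr k k φ a')) = 0 := ha
    rw [AlgEquiv.symm_apply_apply] at h1
    rw [← map_mul]
    exact (S.nil a' h1).map (MonoidAlgebra.domCongr k k φ)

end iso

section cent

variable {k : Type} [Field k] {G : Type} [Group G]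

/-- The subgroup of `G` generated by `Q` and `d`. -/
def hat (d : G) (Q : Subgroup (cent d)) : Subgroup G :=
  Q.map (cent d).subtype ⊔ Subgroup.zpowers d

theorem hat_le {D : Subgroup G} {d : G} (hd : d ∈ D) {Q : Subgroup (cent d)}
    (hQ : Q ≤ D.subgroupOf (cent d)) : hat d Q ≤ D := by
  refine sup_le ?_ ((Subgroup.zpowers_le).2 hd)
  rintro _ ⟨u, hu, rfl⟩
  exact Subgroup.mem_subgroupOf.1 (hQ hu)

theorem mem_hat {d : G} {Q : Subgroup (cent d)} {u : cent d} (hu : u ∈ Q) : (u : G) ∈ hat d Q :=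
  (le_sup_left : Q.map (cent d).subtype ≤ hat d Q) ⟨u, hu, rfl⟩

theorem d_mem_hat (d : G) (Q : Subgroup (cent d)) : d ∈ hat d Q :=
  (le_sup_right : Subgroup.zpowers d ≤ hat d Q) (Subgroup.mem_zpowers d)

theorem cent_hat (d : G) (Q : Subgroup (cent d)) (x : G) :
    x ∈ Subgroup.centralizer (hat d Q : Set G) ↔
      ∃ h : x ∈ cent d, (⟨x, h⟩ : cent d) ∈ Subgroup.centralizer (Q : Set (cent d)) := by
  rw [Subgroup.mem_centralizer_iff]
  constructor
  · intro h
    have h1 : x ∈ cent d := by
      rw [Subgroup.mem_centralizer_singleton_iff]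
      exact (h d (d_mem_hat d Q)).symm
    refine ⟨h1, ?_⟩
    rw [Subgroup.mem_centralizer_iff]
    intro u hu
    apply Subtype.ext
    exact h u (mem_hat hu)
  · rintro ⟨h1, h2⟩
    have h3 : hat d Q ≤ Subgroup.centralizer {x} := by
      refine sup_le ?_ ((Subgroup.zpowers_le).2 ?_)
      · rintro _ ⟨u, hu, rfl⟩
        rw [Subgroup.mem_centralizer_singleton_iff]
        rw [Subgroup.mem_centralizer_iff] at h2
        exact congrArg Subtype.val (h2 u hu)
      · rw [Subgroup.mem_centralizer_singleton_iff] at h1 ⊢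
        exact h1.symm
    intro y hy
    exact Subgroup.mem_centralizer_singleton_iff.1 (h3 hy)

/-- The isomorphism of `C_H(Q)`, `H = C_G(d)`, with `C_G(Q, d)`. -/
def centIso (d : G) (Q : Subgroup (cent d)) (H : Subgroup (cent d))
    (hH : H = Subgroup.centralizer (Q : Set (cent d))) :
    Subgroup.centralizer (hat d Q : Set G) ≃* H where
  toFun x := ⟨⟨x.1, ((cent_hat d Q x.1).1 x.2).1⟩, by rw [hH]; exact ((cent_hat d Q x.1).1 x.2).2⟩
  invFun y := ⟨y.1.1, (cent_hat d Q y.1.1).2 ⟨y.1.2, hH.le y.2⟩⟩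
  left_inv _ := rfl
  right_inv _ := rfl
  map_mul' _ _ := rfl

theorem res_centIso (d : G) (Q : Subgroup (cent d)) (H : Subgroup (cent d))
    (hH : H = Subgroup.centralizer (Q : Set (cent d))) (q : MonoidAlgebra k G) :
    MonoidAlgebra.domCongr k k (centIso d Q H hH)
      (res (Subgroup.centralizer (hat d Q : Set G)) q) = res H (res (cent d) q) := by
  ext h
  rw [MonoidAlgebra.coeff_domCongr, res_coeff, res_coeff, res_coeff]
  rfl

theorem incl_centIso (d : G) (Q : Subgroup (cent d)) (H : Subgroup (cent d))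
    (hH : H = Subgroup.centralizer (Q : Set (cent d)))
    (b : MonoidAlgebra k (Subgroup.centralizer (hat d Q : Set G))) :
    incl k (cent d) (incl k H (MonoidAlgebra.domCongr k k (centIso d Q H hH) b)) =
      incl k _ b := by
  induction b using MonoidAlgebra.induction_linear with
  | zero => simp
  | add x y hx hy => rw [map_add, map_add, map_add, map_add, hx, hy]
  | single g r =>
    rw [MonoidAlgebra.domCongr_single]
    simp only [incl, MonoidAlgebra.mapDomainRingHom_apply, MonoidAlgebra.mapDomain_single]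
    rfl

theorem hat_conj (d : G) (Q Q' : Subgroup (cent d)) (g : cent d)
    (h : ∀ u, u ∈ Q ↔ g * u * g⁻¹ ∈ Q') (u : G) :
    u ∈ hat d Q ↔ (g : G) * u * (g : G)⁻¹ ∈ hat d Q' := by
  have hgd : (g : G) * d * (g : G)⁻¹ = d := by
    have h1 := Subgroup.mem_centralizer_singleton_iff.1 g.2
    rw [h1, mul_inv_cancel_right]
  have hmap : (hat d Q).map (MulAut.conj (g : G)).toMonoidHom = hat d Q' := by
    unfold hat
    rw [Subgroup.map_sup]
    congr 1
    · ext x
      constructor
      · rintro ⟨_, ⟨v, hv, rfl⟩, rfl⟩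
        exact ⟨g * v * g⁻¹, (h v).1 hv, rfl⟩
      · rintro ⟨v, hv, rfl⟩
        refine ⟨((g⁻¹ * v * g : cent d) : G), ⟨g⁻¹ * v * g, ?_, rfl⟩, ?_⟩
        · refine (h _).2 ?_
          have e : g * (g⁻¹ * v * g) * g⁻¹ = v := by group
          rw [e]
          exact hv
        · change (g : G) * ((g : G)⁻¹ * v * g) * (g : G)⁻¹ = v
          group
    · rw [MonoidHom.map_zpowers]
      congr 1
  rw [← hmap]
  constructor
  · intro hu
    exact ⟨u, hu, rfl⟩
  · rintro ⟨v, hv, hvu⟩
    have h1 : (g : G) * v * (g : G)⁻¹ = (g : G) * u * (g : G)⁻¹ := hvu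
    have h2 : v = u := mul_left_cancel (mul_right_cancel h1)
    rw [← h2]
    exact hv

/-- P6a: the local data of `C_G(d)` -/
theorem locK_cent (D : Subgroup G) (d : G)
    (hd : d ∈ D) (hdc : ∀ u ∈ D, u * d = d * u) (q : MonoidAlgebra k G) (h : LocK D q) :
    LocK (D.subgroupOf (cent d)) (res (cent d) q) := by
  constructor
  · intro Q hQ H hH
    obtain ⟨b, hb, hqb, ⟨S⟩⟩ := h.one (hat d Q) (hat_le hd hQ) _ rfl
    refine ⟨MonoidAlgebra.domCongr k k (centIso d Q H hH) b, block_congr _ hb, ?_,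
      simple_congr _ S⟩
    rw [← res_centIso d Q H hH, ← map_mul, hqb]
  · intro Q Q' hQ hQ' H H' hH hH' b b' hb hb' hqb hqb' g hg hbb
    obtain ⟨b0, rfl⟩ := (MonoidAlgebra.domCongr k k (centIso d Q H hH)).surjective b
    obtain ⟨b0', rfl⟩ := (MonoidAlgebra.domCongr k k (centIso d Q' H' hH')).surjective b'
    have e1 : IsBlock b0 := by
      have := block_congr (centIso d Q H hH).symm hb
      have e : MonoidAlgebra.domCongr k k (centIso d Q H hH).symm
          (MonoidAlgebra.domCongr k k (centIso d Q H hH) b0) = b0 :=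
        (MonoidAlgebra.domCongr k k (centIso d Q H hH)).symm_apply_apply b0
      rwa [e] at this
    have e1' : IsBlock b0' := by
      have := block_congr (centIso d Q' H' hH').symm hb'
      have e : MonoidAlgebra.domCongr k k (centIso d Q' H' hH').symm
          (MonoidAlgebra.domCongr k k (centIso d Q' H' hH') b0') = b0' :=
        (MonoidAlgebra.domCongr k k (centIso d Q' H' hH')).symm_apply_apply b0'
      rwa [e] at this
    rw [← res_centIso d Q H hH, ← map_mul] at hqb
    rw [← res_centIso d Q' H' hH', ← map_mul] at hqb'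
    have e2 := (MonoidAlgebra.domCongr k k (centIso d Q H hH)).injective hqb
    have e2' := (MonoidAlgebra.domCongr k k (centIso d Q' H' hH')).injective hqb'
    have e3 : el k (g : G) * incl k _ b0 * el k (g : G)⁻¹ = incl k _ b0' := by
      rw [← incl_centIso d Q H hH, ← incl_centIso d Q' H' hH', ← hbb, map_mul, map_mul, incl_el,
        incl_el]
      rfl
    obtain ⟨c, hc, hcu⟩ := h.fus (hat d Q) (hat d Q') (hat_le hd hQ) (hat_le hd hQ') _ _ rfl rfl
      b0 b0' e1 e1' e2 e2' (g : G) (hat_conj d Q Q' g hg) e3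
    refine ⟨⟨c, Subgroup.mem_centralizer_singleton_iff.2 (hdc c hc)⟩,
      Subgroup.mem_subgroupOf.2 hc, fun u hu => ?_⟩
    apply Subtype.ext
    exact hcu u (mem_hat hu)

end cent

end Pool.Agent.Helper32.NO
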