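import Pool.Agent.Helper32.ND.C

/-!
# The orbit-wise identity for nilpotent real blocks: definitions
-/

set_option autoImplicit false
open scoped BigOperators MonoidAlgebra
open Classical

namespace Pool.Agent.Helper32.NO

open Pool.Agent.Helper36.NB Pool.Agent.Helper44.S3 Pool.Agent.Helper32.ND

/-- The function `w` is constant on conjugacy classes. -/
def ClassFun {G : Type} [Group G] (w : G → ℕ) : Prop := ∀ g v, w (g * v * g⁻¹) = w v

/-- The weighted number of the elements commuting with `h`: the character of the permutation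
module of `G` acting by conjugation on `G`, every `v` taken `w v` times. -/
noncomputable def wc {G : Type} [Group G] [Fintype G] (w : G → ℕ) (h : G) : ℕ :=
  ∑ v : G, if v * h = h * v then w v else 0

/-- The trace of `x` on this permutation module. -/
noncomputable def wsum (O : ValuationSubring ℂ) {G : Type} [Group G] [Fintype G] (w : G → ℕ)
    (x : MonoidAlgebra O G) : ℂ :=
  ∑ h : G, (x.coeff h : ℂ) * (wc w h : ℂ)

/-- The projection `R[G] → R[G/Z]`. -/
noncomputable def prR (R : Type) [CommRing R] {G : Type} [Group G] (Z : Subgroup G) [Z.Normal] :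
    MonoidAlgebra R G →+* MonoidAlgebra R (G ⧸ Z) :=
  MonoidAlgebra.mapDomainRingHom R (QuotientGroup.mk' Z)

/-- The sum of `w` over the cosets of `Z`. -/
noncomputable def push {G : Type} [Group G] [Fintype G] (Z : Subgroup G) (w : G → ℕ) (v : G ⧸ Z) :
    ℕ :=
  ∑ g : G, if (g : G ⧸ Z) = v then w g else 0

/-- The local blocks defined by the idempotent `q`: all have one simple module, and the fusion is
controlled by `D`. -/
structure LocK {k : Type} [Field k] {G : Type} [Group G] (D : Subgroup G)
    (q : MonoidAlgebra k G) : Prop where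
  one : ∀ Q : Subgroup G, Q ≤ D → ∀ H : Subgroup G, H = Subgroup.centralizer (Q : Set G) →
    ∃ b : MonoidAlgebra k H, IsBlock b ∧ res H q * b = res H q ∧ Nonempty (SimpleQuot b)
  fus : ∀ Q Q' : Subgroup G, Q ≤ D → Q' ≤ D →
    ∀ H H' : Subgroup G, H = Subgroup.centralizer (Q : Set G) →
    H' = Subgroup.centralizer (Q' : Set G) →
    ∀ (b : MonoidAlgebra k H) (b' : MonoidAlgebra k H'), IsBlock b → IsBlock b' →
    res H q * b = res H q → res H' q * b' = res H' q →
    ∀ g : G, (∀ u, u ∈ Q ↔ g * u * g⁻¹ ∈ Q') →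
    el k g * incl k H b * el k g⁻¹ = incl k H' b' →
    ∃ d ∈ D, ∀ u ∈ Q, d * u * d⁻¹ = g * u * g⁻¹

/-- The data which are carried along: a central idempotent `e` with one simple module and Cartan
number `|D|`, real, and an idempotent `q` of odd rank, fixed by `D` and by the twisted
inversion `ψ_t`, with local blocks as above. -/
structure Lev (O : ValuationSubring ℂ) {G : Type} [Group G] (D : Subgroup G) (t : G)
    (e : MonoidAlgebra O G) (S : SimpleQuot (toK O G e)) (q : MonoidAlgebra (resK O) G) :
    Prop where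
  ee : e * e = e
  ec : ∀ a, a * e = e * a
  er : inv' e = e
  hD : IsPGroup 2 D
  tD : ∀ u ∈ D, t⁻¹ * u * t ∈ D
  tt : t * t ∈ D
  tn : t ∉ D
  card : (Nat.card G : ℂ) * (e.coeff 1 : ℂ) = (S.n : ℂ) ^ 2 * (Nat.card D : ℂ)
  qq : q * q = q
  qe : q * toK O G e = q
  qD : Cen D q
  qt : psi t q = q
  lam : S.lam q ≠ 0
  loc : LocK D q

/-- The block `b` of `k[H]`, where `H = C_G(Q)`, belongs to the maximal Brauer pair defined by the
source idempotent `q`: `(Q, b)` is contained in it. -/
def IsBelowQ {k : Type} [Field k] {G : Type} [Group G] (q : MonoidAlgebra k G) (Q : Subgroup G)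
    (b : MonoidAlgebra k (Subgroup.centralizer (Q : Set G))) : Prop :=
  IsBlock b ∧ res (Subgroup.centralizer (Q : Set G)) q * b ≠ 0

/-- The block `e` with defect group `D` is nilpotent: the fusion of the Brauer pairs is controlled
by `D`, and the blocks `b_Q` (`Q ≤ D`) have one simple module. -/
structure NilpotentPairs {k : Type} [Field k] {G : Type} [Group G] (D : Subgroup G)
    (e : MonoidAlgebra k G) : Prop where
  simple : OneSimple e
  one : ∀ q, IsSource D e q → ∀ Q : Subgroup G, Q ≤ D →
    ∀ b : MonoidAlgebra k (Subgroup.centralizer (Q : Set G)), IsBelowQ q Q b → OneSimple b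
  fus : ∀ q, IsSource D e q → ∀ Q Q' : Subgroup G, Q ≤ D → Q' ≤ D →
    ∀ (b : MonoidAlgebra k (Subgroup.centralizer (Q : Set G)))
      (b' : MonoidAlgebra k (Subgroup.centralizer (Q' : Set G))),
    IsBelowQ q Q b → IsBelowQ q Q' b' →
    ∀ g : G, (∀ u, u ∈ Q ↔ g * u * g⁻¹ ∈ Q') →
    el k g * incl k _ b * el k g⁻¹ = incl k _ b' →
    ∃ d ∈ D, ∀ u ∈ Q, d * u * d⁻¹ = g * u * g⁻¹

end Pool.Agent.Helper32.NO
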