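import Pool.Agent.Helper32.NO.Defs

/-!
# The element `d` and two small facts
-/

set_option autoImplicit false
open scoped BigOperators MonoidAlgebra
open Classical

namespace Pool.Agent.Helper32.NO

open Pool.Agent.Helper36.NB Pool.Agent.Helper44.S3 Pool.Agent.Helper32.ND

variable {O : ValuationSubring ℂ} {G : Type} [Group G] [Fintype G]

theorem exists_d {D : Subgroup G} {t : G} (hD : IsPGroup 2 D) (tD : ∀ u ∈ D, t⁻¹ * u * t ∈ D)
    (tt : t * t ∈ D) (h1 : D ≠ ⊥) :
    ∃ d ∈ D, d ≠ 1 ∧ d * d = 1 ∧ (∀ u ∈ D, u * d = d * u) ∧ t * d = d * t := by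
  have : Fact (Nat.Prime 2) := ⟨Nat.prime_two⟩
  have : Nontrivial D := (Subgroup.nontrivial_iff_ne_bot D).2 h1
  have hc : Nontrivial (Subgroup.center D) := hD.center_nontrivial
  obtain ⟨z0, hz0⟩ := exists_ne (1 : Subgroup.center D)
  -- an element of order two in the centre
  have hex : ∃ z : D, (∀ u : D, u * z = z * u) ∧ z ≠ 1 ∧ z * z = 1 := by
    obtain ⟨k, hk⟩ := hD (z0 : D)
    have hne : (z0 : D) ≠ 1 := fun h => hz0 (Subtype.ext h)
    have hmin : ∃ m : ℕ, (z0 : D) ^ 2 ^ m = 1 := ⟨k, hk⟩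
    have hs := Nat.find_spec hmin
    rcases hm : Nat.find hmin with _ | m
    · rw [hm] at hs
      simp at hs
      exact absurd hs (fun h => hne (by simpa using h))
    · rw [hm] at hs
      have hlt : ¬ (z0 : D) ^ 2 ^ m = 1 := Nat.find_min hmin (by rw [hm]; exact Nat.lt_succ_self m)
      refine ⟨(z0 : D) ^ 2 ^ m, ?_, hlt, ?_⟩
      · intro u
        have hz : u * (z0 : D) = (z0 : D) * u := Subgroup.mem_center_iff.1 z0.2 u
        exact (Commute.pow_right (show Commute u (z0 : D) from hz) _)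
      · rw [← pow_add, ← two_mul, ← pow_succ', hs]
  obtain ⟨z, hzc, hz1, hz2⟩ := hex
  have hzc' : ∀ u ∈ D, u * (z : G) = z * u := fun u hu => congrArg Subtype.val (hzc ⟨u, hu⟩)
  have hz1' : (z : G) ≠ 1 := fun h => hz1 (Subtype.ext h)
  have hz2' : (z : G) * z = 1 := congrArg Subtype.val hz2
  have hcD : t⁻¹ * (z : G) * t ∈ D := tD z z.2
  by_cases hcz : t⁻¹ * (z : G) * t = z
  · refine ⟨z, z.2, hz1', hz2', hzc', ?_⟩
    have : t * (t⁻¹ * (z : G) * t) = t * z := by rw [hcz]
    rw [← this]; group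
  · set c := t⁻¹ * (z : G) * t with hc
    have htuD : ∀ u ∈ D, t * u * t⁻¹ ∈ D := by
      intro u hu
      have h3 : t * u * t⁻¹ = (t * t) * (t⁻¹ * u * t) * (t * t)⁻¹ := by group
      rw [h3]
      exact D.mul_mem (D.mul_mem tt (tD u hu)) (D.inv_mem tt)
    have hcc : ∀ u ∈ D, u * c = c * u := by
      intro u hu
      have h4 := hzc' _ (htuD u hu)
      calc u * c = t⁻¹ * ((t * u * t⁻¹) * z) * t := by rw [hc]; group
        _ = t⁻¹ * (z * (t * u * t⁻¹)) * t := by rw [h4]
        _ = c * u := by rw [hc]; group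
    have hc2 : c * c = 1 := by
      calc c * c = t⁻¹ * ((z : G) * z) * t := by rw [hc]; group
        _ = 1 := by rw [hz2']; group
    have hzc2 : c * z = z * c := hzc' c hcD
    refine ⟨z * c, D.mul_mem z.2 hcD, ?_, ?_, ?_, ?_⟩
    · intro h
      apply hcz
      calc c = (z * z) * c := by rw [hz2', one_mul]
        _ = z * (z * c) := by group
        _ = z := by rw [h, mul_one]
    · calc (z : G) * c * (z * c) = z * (c * z) * c := by group
        _ = z * (z * c) * c := by rw [hzc2]
        _ = (z * z) * (c * c) := by group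
        _ = 1 := by rw [hz2', hc2, one_mul]
    · intro u hu
      calc u * (z * c) = (u * z) * c := by group
        _ = z * (u * c) := by rw [hzc' u hu]; group
        _ = z * c * u := by rw [hcc u hu]; group
    · have h5 : t⁻¹ * c * t = z := by
        have h6 := hzc' _ tt
        calc t⁻¹ * c * t = (t * t)⁻¹ * (z * (t * t)) := by rw [hc]; group
          _ = (t * t)⁻¹ * ((t * t) * z) := by rw [h6]
          _ = z := by group
      have h7 : t * z = (t * t) * c * t⁻¹ := by rw [hc]; group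
      have h8 : t * c = c * t * (t⁻¹ * c⁻¹ * t) * c := by group
      calc t * (z * c) = t * (c * z) := by rw [hzc2]
        _ = t * (c * (t⁻¹ * c * t)) := by rw [h5]
        _ = (t * c * t⁻¹) * c * t := by group
        _ = z * c * t := by
          congr 2
          have h9 : z * (t * t) = (t * t) * z := (hzc' _ tt).symm
          calc t * c * t⁻¹ = z := by rw [hc]; group
            _ = z := rfl

/-- local data from a semisimple quotient -/
theorem exists_loc' (i : MonoidAlgebra O G) (u : G)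
    (b : MonoidAlgebra (resK O) (cent u)) (hb : IsBlock b)
    (hib : res (cent u) (toK O G i) * b = res (cent u) (toK O G i)) (hS : Nonempty (SimpleQuot b)) :
    Nonempty (Loc O i u) := by
  obtain ⟨B, hBb, hBB, hBc⟩ := lift_central O b hb.2.1 hb.2.2.1
  subst hBb
  obtain ⟨S⟩ := hS
  obtain ⟨j, hj, hjB, hj1⟩ := exists_rank_one O B hBB hBc S
  exact ⟨⟨B, hb, hBB, hBc, hib, S, j, hj, hjB, hj1⟩⟩

theorem push_class (Z : Subgroup G) [Z.Normal] {w : G → ℕ} (hw : ClassFun w) :
    ClassFun (push Z w) := by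
  intro g v
  obtain ⟨g, rfl⟩ := QuotientGroup.mk_surjective g
  obtain ⟨v, rfl⟩ := QuotientGroup.mk_surjective v
  unfold push
  refine Fintype.sum_equiv (MulAut.conj g⁻¹).toEquiv _ _ fun x => ?_
  have h1 : (MulAut.conj g⁻¹).toEquiv x = g⁻¹ * x * g := by simp
  rw [h1]
  have h2 : w (g⁻¹ * x * g) = w x := by
    have := hw g⁻¹ x
    rwa [inv_inv] at this
  rw [h2]
  refine if_congr ?_ rfl rfl
  constructor
  · intro h
    rw [QuotientGroup.mk_mul, QuotientGroup.mk_mul, h, QuotientGroup.mk_inv]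
    group
  · intro h
    rw [← h, QuotientGroup.mk_mul, QuotientGroup.mk_mul, QuotientGroup.mk_inv]
    group

theorem push_sum (Z : Subgroup G) [Z.Normal] (D : Subgroup G) (hZD : Z ≤ D) (w : G → ℕ) (t : G) :
    ∑ u : D.map (QuotientGroup.mk' Z), push Z w ((t : G ⧸ Z) * u) = ∑ u : D, w (t * u) := by
  unfold push
  rw [Finset.sum_comm]
  have h1 : ∀ g : G, (∑ u : D.map (QuotientGroup.mk' Z),
      if (g : G ⧸ Z) = (t : G ⧸ Z) * u then w g else 0) = if t⁻¹ * g ∈ D then w g else 0 := by
    intro g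
    by_cases hg : t⁻¹ * g ∈ D
    · rw [if_pos hg]
      have hm : ((t⁻¹ * g : G) : G ⧸ Z) ∈ D.map (QuotientGroup.mk' Z) :=
        Subgroup.mem_map_of_mem _ hg
      rw [Finset.sum_eq_single (⟨_, hm⟩ : D.map (QuotientGroup.mk' Z))]
      · rw [if_pos]
        change (g : G ⧸ Z) = (t : G ⧸ Z) * ((t⁻¹ * g : G) : G ⧸ Z)
        rw [← QuotientGroup.mk_mul, mul_inv_cancel_left]
      · intro u _ hu
        rw [if_neg]
        intro h
        apply hu
        apply Subtype.ext
        change (u : G ⧸ Z) = ((t⁻¹ * g : G) : G ⧸ Z)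
        rw [QuotientGroup.mk_mul, h, QuotientGroup.mk_inv, inv_mul_cancel_left]
      · intro h
        exact absurd (Finset.mem_univ _) h
    · rw [if_neg hg]
      apply Finset.sum_eq_zero
      intro u _
      rw [if_neg]
      intro h
      apply hg
      have h2 : ((t⁻¹ * g : G) : G ⧸ Z) ∈ D.map (QuotientGroup.mk' Z) := by
        rw [QuotientGroup.mk_mul, h, QuotientGroup.mk_inv, inv_mul_cancel_left]
        exact u.2
      exact (mem_map_mk Z D hZD _).1 h2
  rw [Finset.sum_congr rfl fun g _ => h1 g, ← Finset.sum_filter]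
  symm
  refine Finset.sum_bij (fun (u : D) _ => t * (u : G)) ?_ ?_ ?_ ?_
  · intro u _
    simp
  · intro a _ b _ h
    exact Subtype.ext (mul_left_cancel h)
  · intro g hg
    have hg' : t⁻¹ * g ∈ D := (Finset.mem_filter.1 hg).2
    exact ⟨⟨_, hg'⟩, Finset.mem_univ _, by simp⟩
  · intro u _
    rfl

end Pool.Agent.Helper32.NO
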