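import Pool.Agent.Helper32.NO.Orb
import Pool.Agent.Helper44.NO.P11

/-!
# The final theorem, over the frame
-/

set_option autoImplicit false
open scoped BigOperators MonoidAlgebra
open Classical

namespace Pool.Agent.Helper32.NO

open Pool.Agent.Helper36.NB Pool.Agent.Helper44.S3 Pool.Agent.Helper32.ND
open Pool.Agent.Helper44.NO (quot_block)

variable {O : ValuationSubring ℂ} {G : Type} [Group G] [Fintype G]

/-- The orbit-wise identity when the image in `G/Q` is nilpotent. -/
theorem orb_quot (h2 : (2 : O) ∈ IsLocalRing.maximalIdeal O) (e : MonoidAlgebra O G)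
    (he : IsBlock e) (her : inv' e = e) (S : SimpleQuot (toK O G e)) (x : G)
    (hx : IsDefectClass O e x) (D E : Subgroup G) (hDE : IsDefectPair x D E) (hne : D ≠ E)
    (Q : Subgroup G) [Q.Normal] (hQD : Q ≤ D)
    (hnil : NilpotentPairs (D.map (QuotientGroup.mk' Q)) (toK O (G ⧸ Q) (pr O Q e)))
    (u : G) (hu : u * u = 1) : Orb O e S.n D E u := by
  let _ : Fintype (G ⧸ Q) := Fintype.ofFinite _
  obtain ⟨hb, hr, ⟨S1, hS1⟩, hxq, hDEq⟩ := quot_block h2 e he her S x hx D E hDE Q hQD
  have hD2 : IsPGroup 2 D := IsPGroup.of_card hDE.2.2.2.1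
  have hQ2 : IsPGroup 2 Q := hD2.to_le hQD
  have hneq : D.map (QuotientGroup.mk' Q) ≠ E.map (QuotientGroup.mk' Q) := by
    intro h
    apply hne
    apply le_antisymm hDE.1
    intro g hg
    rw [← mem_map_mk Q D hQD, h, mem_map_mk Q E (hQD.trans hDE.1)]
    exact hg
  refine transfer O h2 e he.2.1 he.2.2.1 S Q hQ2 D E hQD hDE.1 u ?_
  rw [← hS1]
  exact orb_nilpotent h2 _ hb hr S1 _ hxq _ _ hDEq hneq hnil _ (by
    rw [← QuotientGroup.mk_mul, hu, QuotientGroup.mk_one])

end Pool.Agent.Helper32.NO
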