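import Pool.Agent.Helper32.NO.Defs

/-!
# Frames (statements only, bodies `sorry`): never import this file in a proof
-/

set_option autoImplicit false
open scoped BigOperators MonoidAlgebra
open Classical

namespace Pool.Agent.Helper32.NO.Fr

open Pool.Agent.Helper36.NB Pool.Agent.Helper44.S3 Pool.Agent.Helper32.ND
open Pool.Agent.Helper32.NO

variable {O : ValuationSubring ℂ} {G : Type} [Group G] [Fintype G]

/-- P0 -/
theorem exists_wT (O : ValuationSubring ℂ) (w : G → ℕ) (hw : ClassFun w) :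
    ∃ T : TraceFun O G, ∀ x, T.f x = wsum O w x := sorry

/-- P1: the characters `κ_a` are `θ₀ ψ_a` -/
theorem level (h2 : (2 : O) ∈ IsLocalRing.maximalIdeal O) {D : Subgroup G} {t : G}
    {e : MonoidAlgebra O G} {S : SimpleQuot (toK O G e)} {q : MonoidAlgebra (resK O) G}
    (hL : Lev O D t e S q) (j : MonoidAlgebra O G) (hj : j * j = j) (hje : j * e = j)
    (hj1 : (S.ρ (toK O G j)).rank = 1) :
    ∃ i : MonoidAlgebra O G, i * i = i ∧ i * e = i ∧ Cen D i ∧ toK O G i = q ∧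
      ∀ d : G, d ∈ D → d ≠ 1 → ∀ L : Loc O i d, Odd L.m ∧
        (∀ J : IrrData (cent d), ∑ b, J.chi b (toC O (cent d) L.j) ^ 2 =
          (Nat.card {c : G // c ∈ D ∧ c * d = d * c} : ℂ)) ∧
        ∀ I : IrrData G, ∀ a, ‖I.chi a (toC O G (el O d * i))‖ ≤
          L.m * ‖I.chi a (toC O G j)‖ := sorry

/-- P2: the inequality between `G` and `C_G(d)` -/
theorem step (h2 : (2 : O) ∈ IsLocalRing.maximalIdeal O) (i : MonoidAlgebra O G) (hi : i * i = i)
    (d : G) (hd : ∃ n : ℕ, orderOf d = 2 ^ n) (hid : el O d * i = i * el O d) (L : Loc O i d)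
    (hm : 0 < L.m) (j : MonoidAlgebra O G) (hj : j * j = j)
    (hb : ∀ I : IrrData G, ∀ a, ‖I.chi a (toC O G (el O d * i))‖ ≤
      L.m * ‖I.chi a (toC O G j)‖) (w : G → ℕ) (hw : ClassFun w) :
    ∃ M M' : ℕ, wsum O w j = M ∧ wsum O (fun v : cent d => w v) L.j = M' ∧ M' ≤ M := sorry

/-- P2b: the trace of an idempotent is a natural number -/
theorem wsum_nat (j : MonoidAlgebra O G) (hj : j * j = j) (w : G → ℕ) (hw : ClassFun w) :
    ∃ M : ℕ, wsum O w j = M := sorry

/-- P3: extension of the block by a `2`-group -/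
theorem ext {k : Type} [Field k] [IsAlgClosed k] [CharP k 2] {C R : Type} [Group C] [Finite C]
    [Group R] [Finite R] (φ : C →* R) (hker : IsPGroup 2 φ.ker)
    (hkc : ∀ z ∈ φ.ker, ∀ c, z * c = c * z) (hnorm : φ.range.Normal)
    (hodd : ∀ r : R, Odd (orderOf r) → r ∈ φ.range) (b : MonoidAlgebra k C) (hb : IsBlock b)
    (S : SimpleQuot b) :
    ∃ (f : MonoidAlgebra k R) (T : Finset R), IsBlock f ∧ Nonempty (SimpleQuot f) ∧
      f * MonoidAlgebra.mapDomain φ b = MonoidAlgebra.mapDomain φ b ∧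
      f = ∑ r ∈ T, el k r * MonoidAlgebra.mapDomain φ b * el k r⁻¹ := sorry

/-- P4: the local data of the quotient by a central `2`-subgroup `Z ≤ D` -/
theorem locK_quot {k : Type} [Field k] [IsAlgClosed k] [CharP k 2] (D Z : Subgroup G) [Z.Normal]
    (hZ : ∀ z ∈ Z, ∀ g, z * g = g * z) (hZD : Z ≤ D) (hD : IsPGroup 2 D) (q : MonoidAlgebra k G)
    (hq : q * q = q) (hqD : Cen D q) (lam : MonoidAlgebra k G →ₗ[k] k)
    (hlam : ∀ a b, lam (a * b) = lam (b * a)) (hlq : lam q ≠ 0)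
    (hnil : ∀ a, IsNilpotent a → lam a = 0) (h : LocK D q) :
    LocK (D.map (QuotientGroup.mk' Z)) (prR k Z q) := sorry

/-- P5a: the quotient by a central `2`-subgroup `Z ≤ D` (the local part is P4) -/
theorem lev_quot (h2 : (2 : O) ∈ IsLocalRing.maximalIdeal O) {D : Subgroup G} {t : G}
    {e : MonoidAlgebra O G} {S : SimpleQuot (toK O G e)} {q : MonoidAlgebra (resK O) G}
    (hL : Lev O D t e S q) (Z : Subgroup G) [Z.Normal] (hZ : ∀ z ∈ Z, ∀ g, z * g = g * z)
    (hZD : Z ≤ D) (hloc : LocK (D.map (QuotientGroup.mk' Z)) (prR (resK O) Z q)) :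
    ∃ S1 : SimpleQuot (toK O (G ⧸ Z) (pr O Z e)),
      (∀ x : MonoidAlgebra O G, (S1.ρ (toK O (G ⧸ Z) (pr O Z x))).rank =
        (S.ρ (toK O G x)).rank) ∧
      Lev O (D.map (QuotientGroup.mk' Z)) (t : G ⧸ Z) (pr O Z e) S1 (prR (resK O) Z q) := sorry

/-- P5b: the weighted sums in the quotient by a central `2`-subgroup -/
theorem wsum_quot (h2 : (2 : O) ∈ IsLocalRing.maximalIdeal O) (Z : Subgroup G) [Z.Normal]
    [Fintype (G ⧸ Z)] (hZ : ∀ z ∈ Z, ∀ g, z * g = g * z) (hZ2 : IsPGroup 2 Z)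
    (j : MonoidAlgebra O G) (hj : j * j = j) (w : G → ℕ) (hw : ClassFun w) :
    wsum O (push Z w) (pr O Z j) = wsum O w j := sorry

/-- P6a: the local data of `C_G(d)` -/
theorem locK_cent {k : Type} [Field k] [IsAlgClosed k] [CharP k 2] (D : Subgroup G) (d : G)
    (hd : d ∈ D) (hdc : ∀ u ∈ D, u * d = d * u) (q : MonoidAlgebra k G) (h : LocK D q) :
    LocK (D.subgroupOf (cent d)) (res (cent d) q) := sorry

/-- P6b: from `G` to `C_G(d)` (the local part is P6a) -/
theorem lev_cent (h2 : (2 : O) ∈ IsLocalRing.maximalIdeal O) {D : Subgroup G} {t : G}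
    {e : MonoidAlgebra O G} {S : SimpleQuot (toK O G e)} {q : MonoidAlgebra (resK O) G}
    (hL : Lev O D t e S q) (d : G) (hd : d ∈ D) (hd1 : d ≠ 1) (hdc : ∀ u ∈ D, u * d = d * u)
    (hdt : t * d = d * t) (i : MonoidAlgebra O G) (hiq : toK O G i = q) (L : Loc O i d)
    (hodd : Odd L.m) (hcart : ∀ J : IrrData (cent d), ∑ b, J.chi b (toC O (cent d) L.j) ^ 2 =
      (Nat.card D : ℂ))
    (hloc : LocK (D.subgroupOf (cent d)) (res (cent d) q)) (t' : cent d) (ht' : (t' : G) = t) :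
    Lev O (D.subgroupOf (cent d)) t' L.B L.S (res (cent d) q) := sorry

/-- P7: the base `D = 1` -/
theorem base (h2 : (2 : O) ∈ IsLocalRing.maximalIdeal O) {D : Subgroup G} {t : G}
    {e : MonoidAlgebra O G} {S : SimpleQuot (toK O G e)} {q : MonoidAlgebra (resK O) G}
    (hL : Lev O D t e S q) (hD : D = ⊥) (j : MonoidAlgebra O G) (hj : j * j = j)
    (hje : j * e = j) (hj1 : (S.ρ (toK O G j)).rank = 1) (w : G → ℕ) (hw : ClassFun w) (M : ℕ)
    (hM : wsum O w j = M) : w t ≤ M := sorry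

/-- P8: the existence of `d` -/
theorem exists_d {D : Subgroup G} {t : G} (hD : IsPGroup 2 D) (tD : ∀ u ∈ D, t⁻¹ * u * t ∈ D)
    (tt : t * t ∈ D) (h1 : D ≠ ⊥) :
    ∃ d ∈ D, d ≠ 1 ∧ d * d = 1 ∧ (∀ u ∈ D, u * d = d * u) ∧ t * d = d * t := sorry

/-- P8: the main inequality -/
theorem main_le (h2 : (2 : O) ∈ IsLocalRing.maximalIdeal O) {D : Subgroup G} {t : G}
    {e : MonoidAlgebra O G} {S : SimpleQuot (toK O G e)} {q : MonoidAlgebra (resK O) G}
    (hL : Lev O D t e S q) (j : MonoidAlgebra O G) (hj : j * j = j)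
    (hje : j * e = j) (hj1 : (S.ρ (toK O G j)).rank = 1) (w : G → ℕ) (hw : ClassFun w) :
    ∃ M : ℕ, wsum O w j = M ∧ ∑ u : D, w (t * u) ≤ M := sorry

/-- P9: the top level -/
theorem exists_lev (h2 : (2 : O) ∈ IsLocalRing.maximalIdeal O) (e : MonoidAlgebra O G)
    (he : IsBlock e) (her : inv' e = e) (S : SimpleQuot (toK O G e)) (x : G)
    (hx : IsDefectClass O e x) (D E : Subgroup G) (hDE : IsDefectPair x D E) (t : G) (ht : t ∈ E)
    (ht' : t ∉ D) (hnil : NilpotentPairs D (toK O G e)) :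
    ∃ q, Lev O D t e S q := sorry

/-- P9b: the hypothesis on pairs contains the one on elements -/
theorem elements_of_pairs {k : Type} [Field k] {D : Subgroup G} {e : MonoidAlgebra k G}
    (h : NilpotentPairs D e) : NilpotentElements D e := sorry

/-- P10a: the total identity in terms of `wsum` -/
theorem total (h2 : (2 : O) ∈ IsLocalRing.maximalIdeal O) (e : MonoidAlgebra O G)
    (ee : e * e = e) (ec : ∀ a, a * e = e * a) (S : SimpleQuot (toK O G e))
    (j : MonoidAlgebra O G) (hj : IsPrimitiveIdem j) (hje : j * e = j) :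
    (∑ g : G, pim O j (g * g)) / (Nat.card G : ℂ) =
      wsum O (fun v : G => if v * v = 1 then 1 else 0) j := sorry

/-- P10b: the orbit-wise identity in terms of `wsum` -/
theorem orb_of_wsum (h2 : (2 : O) ∈ IsLocalRing.maximalIdeal O) (e : MonoidAlgebra O G)
    (ee : e * e = e) (ec : ∀ a, a * e = e * a) (S : SimpleQuot (toK O G e))
    (j : MonoidAlgebra O G) (hj : j * j = j) (hje : j * e = j)
    (hj1 : (S.ρ (toK O G j)).rank = 1) (D E : Subgroup G) (u : G)
    (h : wsum O (fun v : G => if IsConj u v then 1 else 0) j =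
      (Nat.card {y : G // y ∈ E ∧ y ∉ D ∧ IsConj u y} : ℂ)) : Orb O e S.n D E u := sorry

/-- P10: the orbit-wise identity for nilpotent blocks -/
theorem orb_nilpotent (h2 : (2 : O) ∈ IsLocalRing.maximalIdeal O) (e : MonoidAlgebra O G)
    (he : IsBlock e) (her : inv' e = e) (S : SimpleQuot (toK O G e)) (x : G)
    (hx : IsDefectClass O e x) (D E : Subgroup G) (hDE : IsDefectPair x D E) (hne : D ≠ E)
    (hnil : NilpotentPairs D (toK O G e)) (u : G) (hu : u * u = 1) : Orb O e S.n D E u := sorry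

/-- P11: the image of a block with one simple module in `G/Q`, `Q` a normal `2`-subgroup -/
theorem quot_block (h2 : (2 : O) ∈ IsLocalRing.maximalIdeal O) (e : MonoidAlgebra O G)
    (he : IsBlock e) (her : inv' e = e) (S : SimpleQuot (toK O G e)) (x : G)
    (hx : IsDefectClass O e x) (D E : Subgroup G) (hDE : IsDefectPair x D E) (Q : Subgroup G)
    [Q.Normal] (hQD : Q ≤ D) [Fintype (G ⧸ Q)] :
    IsBlock (pr O Q e) ∧ inv' (pr O Q e) = pr O Q e ∧
      (∃ S1 : SimpleQuot (toK O (G ⧸ Q) (pr O Q e)), S1.n = S.n) ∧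
      IsDefectClass O (pr O Q e) (x : G ⧸ Q) ∧
      IsDefectPair (x : G ⧸ Q) (D.map (QuotientGroup.mk' Q)) (E.map (QuotientGroup.mk' Q)) :=
  sorry

end Pool.Agent.Helper32.NO.Fr
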