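import Pool.Agent.Helper32.NO.Defs

/-!
# The data of `C_G(d)`
-/

set_option autoImplicit false
open scoped BigOperators MonoidAlgebra
open Classical

namespace Pool.Agent.Helper32.NO

open Pool.Agent.Helper36.NB Pool.Agent.Helper44.S3 Pool.Agent.Helper32.ND

variable {O : ValuationSubring ℂ} {G : Type} [Group G] [Fintype G]

omit [Fintype G] in
theorem res_el_mul {R : Type} [CommRing R] (H : Subgroup G) (g : H) (a : MonoidAlgebra R G) :
    res H (el R (g : G) * a) = el R g * res H a := by
  ext h
  rw [res_coeff, el_mul_coeff, el_mul_coeff, res_coeff]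
  rfl

omit [Fintype G] in
theorem res_mul_el {R : Type} [CommRing R] (H : Subgroup G) (g : H) (a : MonoidAlgebra R G) :
    res H (a * el R (g : G)) = res H a * el R g := by
  ext h
  rw [res_coeff, mul_el_coeff, mul_el_coeff, res_coeff]
  rfl

omit [Fintype G] in
theorem res_inv' {R : Type} [CommRing R] (H : Subgroup G) (a : MonoidAlgebra R G) :
    res H (inv' a) = inv' (res H a) := by
  ext h
  rw [res_coeff, inv'_coeff, inv'_coeff, res_coeff]
  rfl

omit [Fintype G] in
theorem res_psi {R : Type} [CommRing R] (H : Subgroup G) (t : H) (a : MonoidAlgebra R G) :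
    res H (psi (t : G) a) = psi t (res H a) := by
  rw [psi_apply, psi_apply]
  have h1 : ((t : G))⁻¹ = ((t⁻¹ : H) : G) := rfl
  rw [h1, res_mul_el, res_el_mul, res_inv']

/-- The rank of a central idempotent from the Cartan number. -/
theorem rank_of_cartan {H : Type} [Group H] [Fintype H] (B : MonoidAlgebra O H)
    (hB : B * B = B) (hBc : ∀ a, a * B = B * a) (S : SimpleQuot (toK O H B))
    (j : MonoidAlgebra O H) (hj : j * j = j) (hjB : j * B = j)
    (hj1 : (S.ρ (toK O H j)).rank = 1) (I : IrrData H) (c : ℂ)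
    (hc : ∑ a, I.chi a (toC O H j) ^ 2 = c) :
    (Nat.card H : ℂ) * (B.coeff 1 : ℂ) = (S.n : ℂ) ^ 2 * c := by
  have hce : ∀ a, I.chi a (toC O H B) = (S.n : ℂ) * I.chi a (toC O H j) := by
    intro a
    have h := trace_rank O B hB hBc S j hj hjB hj1 B hB hB (TraceFun.ofChi O I a)
    simp only [TraceFun.ofChi_apply] at h
    rw [h, S.one, Matrix.rank_one, Fintype.card_fin]
  have hCec : ∀ y, y * toC O H B = toC O H B * y := by
    apply E0aux.central_of_el
    intro g
    rw [← toC_el O g, ← map_mul, ← map_mul, hBc]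
  have hdj : ∀ a, (I.d a : ℂ) * I.chi a (toC O H j) =
      (S.n : ℂ) * I.chi a (toC O H j) ^ 2 := by
    intro a
    have h := E0aux.chi_mul_central I a (toC O H B) (toC O H j) hCec
    rw [← map_mul, ← hBc, hjB, hce] at h
    rw [h]
    ring
  rw [← hc, ← toC_apply, ← E0aux.regular I, Finset.mul_sum]
  refine Finset.sum_congr rfl fun a _ => ?_
  calc (I.d a : ℂ) * I.chi a (toC O H B) = (S.n : ℂ) * ((I.d a : ℂ) * I.chi a (toC O H j)) := by
        rw [hce]; ring
    _ = (S.n : ℂ) ^ 2 * I.chi a (toC O H j) ^ 2 := by rw [hdj]; ring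

/-- Two central idempotents with the same reduction are equal. -/
theorem central_unique {H : Type} [Group H] [Fintype H] (A B : MonoidAlgebra O H)
    (hA : A * A = A) (hB : B * B = B) (hBc : ∀ a, a * B = B * a)
    (h : toK O H A = toK O H B) : A = B := by
  have h1 : (A - A * B) * (A - A * B) = A - A * B := by
    have h3 : A * B * A = A * B := by rw [mul_assoc, ← hBc, ← mul_assoc, hA]
    have h4 : A * (A * B) = A * B := by rw [← mul_assoc, hA]
    have h5 : A * B * (A * B) = A * B := by rw [← mul_assoc, h3, mul_assoc, hB]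
    rw [sub_mul, mul_sub, mul_sub, hA, h3, h4, h5, sub_self, sub_zero]
  have h2 : (B - A * B) * (B - A * B) = B - A * B := by
    have h3 : B * (A * B) = A * B := by rw [← mul_assoc, ← hBc A, mul_assoc, hB]
    have h4 : A * B * B = A * B := by rw [mul_assoc, hB]
    have h5 : A * B * (A * B) = A * B := by
      rw [mul_assoc, ← mul_assoc B A B, ← hBc A, mul_assoc A B B, hB, ← mul_assoc, hA]
    rw [sub_mul, mul_sub, mul_sub, hB, h3, h4, h5, sub_self, sub_zero]
  have hb : toK O H B * toK O H B = toK O H B := by rw [← map_mul, hB]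
  have e1 := idem_eq_zero O h1 (by rw [map_sub, map_mul, h, hb, sub_self])
  have e2 := idem_eq_zero O h2 (by rw [map_sub, map_mul, h, hb, sub_self])
  rw [sub_eq_zero] at e1 e2
  rw [e1, ← e2]

/-- P6b: from `G` to `C_G(d)` -/
theorem lev_cent (h2 : (2 : O) ∈ IsLocalRing.maximalIdeal O) {D : Subgroup G} {t : G}
    {e : MonoidAlgebra O G} {S : SimpleQuot (toK O G e)} {q : MonoidAlgebra (resK O) G}
    (hL : Lev O D t e S q) (d : G) (hd : d ∈ D) (hd1 : d ≠ 1) (hdc : ∀ u ∈ D, u * d = d * u)
    (hdt : t * d = d * t) (i : MonoidAlgebra O G) (hiq : toK O G i = q) (L : Loc O i d)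
    (hodd : Odd L.m) (hcart : ∀ J : IrrData (cent d), ∑ b, J.chi b (toC O (cent d) L.j) ^ 2 =
      (Nat.card D : ℂ))
    (hloc : LocK (D.subgroupOf (cent d)) (res (cent d) q)) (t' : cent d) (ht' : (t' : G) = t) :
    Lev O (D.subgroupOf (cent d)) t' L.B L.S (res (cent d) q) := by
  haveI : CharP (resK O) 2 := resK_charP O h2
  have hdo : ∃ n : ℕ, orderOf d = 2 ^ n := orderOf_two hL.hD hd
  have hDH : D ≤ cent d := by
    intro u hu
    rw [Subgroup.mem_centralizer_singleton_iff]
    exact hdc u hu
  have hqq : res (cent d) q * res (cent d) q = res (cent d) q := by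
    rw [← res_mul_cent d hdo q q (hL.qD d hd) (hL.qD d hd), hL.qq]
  have hqb : res (cent d) q * toK O _ L.B = res (cent d) q := by
    rw [← hiq]; exact L.hib
  have hqt : psi t' (res (cent d) q) = res (cent d) q := by
    rw [← res_psi, ht', hL.qt]
  have hlam : L.S.lam (res (cent d) q) ≠ 0 := by
    rw [SimpleQuot.lam_apply, trace_eq_rank' _ (by rw [← map_mul, hqq])]
    intro h0
    have h1 : 2 ∣ L.m := by
      have h3 : ((L.m : ℕ) : resK O) = 0 := by
        rw [← h0]
        unfold Loc.m
        rw [hiq]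
      exact (CharP.cast_eq_zero_iff (resK O) 2 _).1 h3
    rw [← Nat.not_even_iff_odd] at hodd
    exact hodd (even_iff_two_dvd.2 h1)
  have hq0 : res (cent d) q ≠ 0 := by
    intro h0
    apply hlam
    rw [h0, map_zero]
  have hbc : ∀ a, a * toK O _ L.B = toK O _ L.B * a := fun a => toK_central L.hBc a
  have her : inv' L.B = L.B := by
    have hib : inv' (toK O _ L.B) * res (cent d) q = res (cent d) q := by
      have h1 := congrArg (fun y => psi t' y) hqb
      simp only [psi_mul] at h1
      rw [hqt] at h1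
      have h3 : psi t' (toK O _ L.B) = inv' (toK O (cent d) L.B) := by
        rw [psi_apply]
        have h4 : el (resK O) t' * inv' (toK O (cent d) L.B) =
            inv' (toK O (cent d) L.B) * el (resK O) t' := by
          have h5 := congrArg inv' (hbc (el (resK O) t'⁻¹))
          rw [inv'_mul, inv'_mul, inv'_el, inv_inv] at h5
          exact h5.symm
        rw [h4, mul_assoc, el_mul_el_inv, mul_one]
      rw [h3] at h1
      exact h1
    have hinvc : ∀ a, a * inv' (toK O (cent d) L.B) = inv' (toK O (cent d) L.B) * a := by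
      intro a
      have h5 := congrArg inv' (hbc (inv' a))
      rw [inv'_mul, inv'_mul, inv'_inv'] at h5
      exact h5.symm
    have hinvi : inv' (toK O (cent d) L.B) * inv' (toK O (cent d) L.B) =
        inv' (toK O (cent d) L.B) := by
      rw [← inv'_mul, ← map_mul, L.hB]
    have hk : inv' (toK O (cent d) L.B) = toK O (cent d) L.B := by
      rcases L.blk.2.2.2 _ hinvi hinvc with h | h
      · exfalso
        apply hq0
        calc res (cent d) q = inv' (toK O _ L.B) * res (cent d) q := hib.symm
          _ = inv' (toK O _ L.B) * (toK O _ L.B * res (cent d) q) := by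
              rw [← hbc, hqb]
          _ = 0 := by rw [← mul_assoc, h, zero_mul]
      · have h3 := congrArg inv' h
        rw [inv'_mul, inv'_inv', h] at h3
        exact h3.symm
    refine central_unique _ _ ?_ L.hB L.hBc (by rw [toK_inv', hk])
    rw [← inv'_mul, L.hB]
  have hcardD : Nat.card (D.subgroupOf (cent d)) = Nat.card D :=
    Nat.card_congr (Subgroup.subgroupOfEquivOfLe hDH).toEquiv
  refine ⟨L.hB, L.hBc, her, ?_, ?_, ?_, ?_, ?_, hqq, hqb, ?_, hqt, hlam, hloc⟩
  · rintro ⟨u, hu⟩
    rw [Subgroup.mem_subgroupOf] at hu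
    obtain ⟨k, hk⟩ := hL.hD ⟨u, hu⟩
    refine ⟨k, ?_⟩
    apply Subtype.ext
    apply Subtype.ext
    have := congrArg Subtype.val hk
    simpa using this
  · intro u hu
    rw [Subgroup.mem_subgroupOf] at hu ⊢
    have := hL.tD _ hu
    rw [← ht'] at this
    exact this
  · rw [Subgroup.mem_subgroupOf]
    have := hL.tt
    rw [← ht'] at this
    exact this
  · rw [Subgroup.mem_subgroupOf, ht']
    exact hL.tn
  · obtain ⟨J⟩ := exists_irrData (cent d)
    rw [hcardD]
    exact rank_of_cartan L.B L.hB L.hBc L.S L.j L.hj L.hjB L.hj1 J _ (hcart J)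
  · intro u hu
    rw [Subgroup.mem_subgroupOf] at hu
    have h1 := congrArg (res (cent d)) (hL.qD _ hu)
    rw [res_el_mul, res_mul_el] at h1
    exact h1

end Pool.Agent.Helper32.NO
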