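import Pool.Agent.Helper12.NO.WT
import Pool.Agent.Helper28.NO.Wsum
import Pool.Agent.Helper63.NO.Wc

/-!
# The inequality between `G` and `C_G(d)`
-/

set_option autoImplicit false
open scoped BigOperators MonoidAlgebra
open Classical

namespace Pool.Agent.Helper32.NO

open Pool.Agent.Helper36.NB Pool.Agent.Helper44.S3 Pool.Agent.Helper32.ND
open Pool.Agent.Helper12.NO (wsum_single wsum_add wsum_zero)
open Pool.Agent.Helper28.NO (sum_odd)
open Pool.Agent.Helper63.NO (exists_mu exists_nat)

variable {O : ValuationSubring ℂ} {G : Type} [Group G] [Fintype G]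

omit [Fintype G] in
/-- Commuting with `d s` is commuting with `d` and with `s`. -/
theorem comm_mul_iff (d s v : G) (hd : ∃ n : ℕ, orderOf d = 2 ^ n) (hs : Odd (orderOf s))
    (hds : d * s = s * d) : v * (d * s) = d * s * v ↔ v * d = d * v ∧ v * s = s * v := by
  constructor
  · intro h
    have h1 : Commute v ((d * s) ^ orderOf s) := Commute.pow_right h _
    have hc : Commute d s := hds
    rw [hc.mul_pow, pow_orderOf_eq_one, mul_one] at h1
    obtain ⟨n, hn⟩ := hd
    obtain ⟨m, hm⟩ := exists_pow_eq_self_of_coprime (x := d) (n := orderOf s) (by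
      rw [hn]
      exact Nat.Coprime.pow_right _ (Nat.coprime_two_right.2 hs))
    have h3 : Commute v d := by
      rw [← hm]
      exact h1.pow_right m
    refine ⟨h3, ?_⟩
    have h4 : d * (v * s) = d * (s * v) := by
      calc d * (v * s) = v * (d * s) := by rw [← mul_assoc, ← h3.eq, mul_assoc]
        _ = d * (s * v) := by rw [h, mul_assoc]
    exact mul_left_cancel h4
  · rintro ⟨h1, h3⟩
    rw [← mul_assoc, h1, mul_assoc, h3, mul_assoc]

theorem wsum_local (h2 : (2 : O) ∈ IsLocalRing.maximalIdeal O) (d : G)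
    (hd : ∃ n : ℕ, orderOf d = 2 ^ n) (j : MonoidAlgebra O (cent d)) (hj : j * j = j)
    (w : G → ℕ) (hw : ClassFun w) :
    wsum O w (el O d * incl O _ j) = wsum O (fun v : cent d => w v) j := by
  have h1 : ∀ x : MonoidAlgebra O (cent d), wsum O w (el O d * incl O _ x) =
      ∑ h : cent d, (x.coeff h : ℂ) * (wc w (d * (h : G)) : ℂ) := by
    intro x
    induction x using MonoidAlgebra.induction_linear with
    | zero =>
      rw [map_zero, mul_zero, wsum_zero]
      simp
    | add x y hx hy =>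
      rw [map_add, mul_add, wsum_add, hx, hy, ← Finset.sum_add_distrib]
      refine Finset.sum_congr rfl fun h _ => ?_
      rw [MonoidAlgebra.coeff_add, Finsupp.add_apply, ← add_mul]
      rfl
    | single h r =>
      have e1 : el O d * incl O (cent d) (MonoidAlgebra.single h r) =
          MonoidAlgebra.single (d * (h : G)) r := by simp [el, incl]
      rw [e1, wsum_single, Finset.sum_eq_single h]
      · rw [MonoidAlgebra.coeff_single, Finsupp.single_eq_same]
      · intro b _ hb
        rw [MonoidAlgebra.coeff_single, Finsupp.single_eq_of_ne hb]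
        simp
      · intro h'
        exact absurd (Finset.mem_univ _) h'
  rw [h1]
  have hF1 : ∀ g s : cent d, ((wc w (d * ((g * s * g⁻¹ : cent d) : G)) : ℕ) : ℂ) =
      ((wc w (d * (s : G)) : ℕ) : ℂ) := by
    intro g s
    have hg : (g : G) * d = d * g := Subgroup.mem_centralizer_singleton_iff.1 g.2
    have h3 : d * ((g * s * g⁻¹ : cent d) : G) = (g : G) * (d * s) * (g : G)⁻¹ := by
      change d * ((g : G) * s * (g : G)⁻¹) = _
      rw [← mul_assoc, ← mul_assoc, ← hg, mul_assoc (g : G) d]
    rw [h3, Pool.Agent.Helper12.NO.wc_conj hw]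
  have hw' : ClassFun (fun v : cent d => w v) := fun g v => hw g v
  have hF2 : ∀ g s : cent d, ((wc (fun v : cent d => w v) (g * s * g⁻¹) : ℕ) : ℂ) =
      ((wc (fun v : cent d => w v) s : ℕ) : ℂ) := by
    intro g s
    rw [Pool.Agent.Helper12.NO.wc_conj hw']
  unfold wsum
  rw [sum_odd h2 j hj (fun s : cent d => (wc w (d * (s : G)) : ℂ)) hF1,
    sum_odd h2 j hj (fun s : cent d => (wc (fun v : cent d => w v) s : ℂ)) hF2]
  refine Finset.sum_congr rfl fun s hs => ?_
  congr 2
  rw [Finset.mem_filter] at hs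
  have hso : Odd (orderOf (s : G)) := by
    rw [Subgroup.orderOf_coe]
    exact hs.2
  have hsd : d * (s : G) = s * d := (Subgroup.mem_centralizer_singleton_iff.1 s.2).symm
  unfold wc
  have h3 : ∑ v : cent d, (if v * s = s * v then w (v : G) else 0) =
      ∑ v ∈ Finset.univ.filter (fun v : G => v ∈ cent d),
        if v * (s : G) = s * v then w v else 0 := by
    rw [Finset.sum_subtype (Finset.univ.filter (fun v : G => v ∈ cent d)) (p := fun v => v ∈ cent d)
      (by simp) (fun v : G => if v * (s : G) = s * v then w v else 0)]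
    refine Finset.sum_congr rfl fun v _ => ?_
    refine if_congr ?_ rfl rfl
    exact ⟨fun h => congrArg Subtype.val h, fun h => Subtype.ext h⟩
  refine Eq.trans ?_ (h3.symm.trans (by
    refine Finset.sum_congr rfl fun v _ => ?_
    by_cases hv : v * s = s * v
    · rw [if_pos hv, if_pos hv]
    · rw [if_neg hv, if_neg hv]))
  rw [Finset.sum_filter]
  refine Finset.sum_congr rfl fun v _ => ?_
  rw [← ite_and]
  refine if_congr ?_ rfl rfl
  rw [comm_mul_iff d s v hd hso hsd, Subgroup.mem_centralizer_singleton_iff]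

/-- P2: the inequality between `G` and `C_G(d)` -/
theorem step (h2 : (2 : O) ∈ IsLocalRing.maximalIdeal O) (i : MonoidAlgebra O G) (hi : i * i = i)
    (d : G) (hd : ∃ n : ℕ, orderOf d = 2 ^ n) (hid : el O d * i = i * el O d) (L : Loc O i d)
    (hm : 0 < L.m) (j : MonoidAlgebra O G) (hj : j * j = j)
    (hb : ∀ I : IrrData G, ∀ a, ‖I.chi a (toC O G (el O d * i))‖ ≤
      L.m * ‖I.chi a (toC O G j)‖) (w : G → ℕ) (hw : ClassFun w) :
    ∃ M M' : ℕ, wsum O w j = M ∧ wsum O (fun v : cent d => w v) L.j = M' ∧ M' ≤ M := by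
  obtain ⟨I⟩ := exists_irrData G
  obtain ⟨μ, hμ⟩ := exists_mu O I w hw
  obtain ⟨M, hM⟩ := exists_nat O w hw j hj
  have hw' : ClassFun (fun v : cent d => w v) := fun g v => hw g v
  obtain ⟨M', hM'⟩ := exists_nat O _ hw' L.j L.hj
  refine ⟨M, M', hM, hM', ?_⟩
  obtain ⟨T, hT⟩ := Pool.Agent.Helper12.NO.exists_wT O w hw
  have h1 := local_trace O h2 d hd i hi hid L.B L.hB L.hBc L.hib L.S L.j L.hj L.hjB L.hj1 T 1
    odd_one
  rw [pow_one, hT, hT, wsum_local h2 d hd L.j L.hj w hw, hM', hμ] at h1
  have h3 : ‖∑ a, (μ a : ℂ) * I.chi a (toC O G (el O d * i))‖ ≤ (L.m : ℝ) * M := by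
    refine (norm_sum_le _ _).trans ?_
    have h4 : (L.m : ℝ) * M = ∑ a, (μ a : ℝ) * ((L.m : ℝ) * ‖I.chi a (toC O G j)‖) := by
      choose m hmm using fun a => chi_idem I a (toC O G j) (by rw [← map_mul, hj])
      have h5 : (M : ℂ) = ∑ a, (μ a : ℂ) * (m a : ℂ) := by
        rw [← hM, hμ]
        exact Finset.sum_congr rfl fun a _ => by rw [hmm]
      have h6 : (M : ℝ) = ∑ a, (μ a : ℝ) * (m a : ℝ) := by exact_mod_cast h5
      rw [h6, Finset.mul_sum]
      refine Finset.sum_congr rfl fun a _ => ?_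
      rw [hmm, Complex.norm_natCast]
      ring
    rw [h4]
    refine Finset.sum_le_sum fun a _ => ?_
    rw [norm_mul, Complex.norm_natCast]
    exact mul_le_mul_of_nonneg_left (hb I a) (Nat.cast_nonneg _)
  rw [h1, norm_mul, Complex.norm_natCast, Complex.norm_natCast] at h3
  have h4 : (M' : ℝ) ≤ M := by
    have h5 : (0 : ℝ) < L.m := Nat.cast_pos.2 hm
    exact le_of_mul_le_mul_left h3 h5
  exact_mod_cast h4

end Pool.Agent.Helper32.NO
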