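import Pool.Agent.Helper32.NO.ExD
import Pool.Agent.Helper32.NO.Frame

/-!
# The main inequality
-/

set_option autoImplicit false
open scoped BigOperators MonoidAlgebra
open Classical

namespace Pool.Agent.Helper32.NO

open Pool.Agent.Helper36.NB Pool.Agent.Helper44.S3 Pool.Agent.Helper32.ND
open Pool.Agent.Helper32.NO.Fr (level step wsum_nat locK_quot lev_quot wsum_quot locK_cent lev_cent base)

theorem main_le (O : ValuationSubring ℂ) (h2 : (2 : O) ∈ IsLocalRing.maximalIdeal O) : ∀ n : ℕ,
    ∀ (G : Type) [Group G] [Fintype G] (D : Subgroup G) (t : G) (e : MonoidAlgebra O G)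
      (S : SimpleQuot (toK O G e)) (q : MonoidAlgebra (resK O) G), Lev O D t e S q →
      Nat.card D ≤ n → ∀ j : MonoidAlgebra O G, j * j = j → j * e = j →
      (S.ρ (toK O G j)).rank = 1 → ∀ w : G → ℕ, ClassFun w →
      ∃ M : ℕ, wsum O w j = M ∧ ∑ u : D, w (t * u) ≤ M := by
  have hch : CharP (resK O) 2 := resK_charP O h2
  have halg : IsAlgClosed (resK O) := resK_isAlgClosed O
  intro n
  induction n with
  | zero =>
    intro G _ _ D t e S q _ hn
    exact absurd hn (Nat.not_le.2 Nat.card_pos)
  | succ n ih =>
    intro G _ _ D t e S q hL hn j hj hje hj1 w hw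
    by_cases hD : D = ⊥
    · obtain ⟨M, hM⟩ := wsum_nat (O := O) j hj w hw
      refine ⟨M, hM, ?_⟩
      have h1 := base h2 hL hD j hj hje hj1 w hw M hM
      have h3 : ∑ u : D, w (t * u) = w t := by
        rw [Finset.sum_eq_single (1 : D)]
        · simp
        · intro b _ hb
          exfalso
          apply hb
          apply Subtype.ext
          have h4 : ∀ x : G, x ∈ D → x = 1 := by
            intro x hx
            rw [hD] at hx
            exact Subgroup.mem_bot.1 hx
          exact h4 b b.2
        · intro h
          exact absurd (Finset.mem_univ _) h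
      rw [h3]
      exact h1
    · obtain ⟨d, hdD, hd1, hd2, hdc, hdt⟩ := exists_d hL.hD hL.tD hL.tt hD
      obtain ⟨i, hi, hie, hiD, hiq, hlev⟩ := level h2 hL j hj hje hj1
      have hcent : cent d = Subgroup.centralizer ((Subgroup.zpowers d : Subgroup G) : Set G) :=
        cent_eq d
      have hzD : Subgroup.zpowers d ≤ D := by
        rw [Subgroup.zpowers_le]
        exact hdD
      obtain ⟨b, hb, hqb, hS⟩ := hL.loc.one (Subgroup.zpowers d) hzD (cent d) hcent
      obtain ⟨L⟩ := exists_loc' i d b hb (by rw [hiq]; exact hqb) hS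
      obtain ⟨hodd, hcart, hbound⟩ := hlev d hdD hd1 L
      have hcd : Nat.card {c : G // c ∈ D ∧ c * d = d * c} = Nat.card D := by
        apply Nat.card_congr
        exact
          { toFun := fun c => ⟨c.1, c.2.1⟩
            invFun := fun c => ⟨c.1, c.2, hdc _ c.2⟩
            left_inv := fun c => rfl
            right_inv := fun c => rfl }
      rw [hcd] at hcart
      have hord : ∃ n : ℕ, orderOf d = 2 ^ n := orderOf_two hL.hD hdD
      obtain ⟨M, M', hM, hM', hMM⟩ := step h2 i hi d hord (hiD d hdD) L hodd.pos j hj hbound w hw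
      refine ⟨M, hM, le_trans ?_ hMM⟩
      -- the group `H = C_G(d)`
      have htd : t ∈ cent d := Subgroup.mem_centralizer_singleton_iff.2 hdt
      have hlocH := locK_cent D d hdD hdc q hL.loc
      have hLH := lev_cent h2 hL d hdD hd1 hdc hdt i hiq L hodd hcart hlocH ⟨t, htd⟩ rfl
      have hdd : d ∈ cent d := Subgroup.mem_centralizer_singleton_iff.2 rfl
      set DH := D.subgroupOf (cent d) with hDH
      set d' : cent d := ⟨d, hdd⟩ with hd'
      have hcen : ∀ z ∈ Subgroup.zpowers d', ∀ g : cent d, z * g = g * z := by
        intro z hz g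
        obtain ⟨k, rfl⟩ := Subgroup.mem_zpowers_iff.1 hz
        have hg : Commute d' g := by
          have := Subgroup.mem_centralizer_singleton_iff.1 g.2
          exact Subtype.ext this.symm
        exact hg.zpow_left k
      have hnorm : (Subgroup.zpowers d').Normal := by
        constructor
        intro z hz g
        rw [← hcen z hz g, mul_inv_cancel_right]
        exact hz
      have hZD : Subgroup.zpowers d' ≤ DH := by
        rw [Subgroup.zpowers_le]
        exact Subgroup.mem_subgroupOf.2 hdD
      have hlocQ := locK_quot DH (Subgroup.zpowers d') hcen hZD hLH.hD _ hLH.qq hLH.qD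
        (L.S.lam) (L.S.lam_comm) hLH.lam (L.S.lam_nil) hlocH
      obtain ⟨S1, hS1, hLQ⟩ := lev_quot h2 hLH (Subgroup.zpowers d') hcen hZD hlocQ
      have hwH : ClassFun (fun v : cent d => w v) := by
        intro g v
        exact hw g v
      have hcard : Nat.card (DH.map (QuotientGroup.mk' (Subgroup.zpowers d'))) ≤ n := by
        have h5 : Nat.card DH = Nat.card D := by
          apply Nat.card_congr
          exact
            { toFun := fun c => ⟨c.1.1, Subgroup.mem_subgroupOf.1 c.2⟩
              invFun := fun c => ⟨⟨c.1, Subgroup.mem_centralizer_singleton_iff.2 (hdc _ c.2)⟩,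
                Subgroup.mem_subgroupOf.2 c.2⟩
              left_inv := fun c => rfl
              right_inv := fun c => rfl }
        have h6 : Nat.card (DH.map (QuotientGroup.mk' (Subgroup.zpowers d'))) < Nat.card DH := by
          let f : DH → DH.map (QuotientGroup.mk' (Subgroup.zpowers d')) := fun c =>
            ⟨QuotientGroup.mk' (Subgroup.zpowers d') c.1, Subgroup.mem_map_of_mem _ c.2⟩
          have hf : Function.Surjective f := by
            rintro ⟨y, hy⟩
            obtain ⟨c, hc, rfl⟩ := hy
            exact ⟨⟨c, hc⟩, rfl⟩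
          have hle := Nat.card_le_card_of_surjective f hf
          refine lt_of_le_of_ne hle ?_
          intro heq
          have hbij := (Nat.bijective_iff_surjective_and_card f).2 ⟨hf, heq.symm⟩
          have h7 : (⟨d', hZD (Subgroup.mem_zpowers d')⟩ : DH) = 1 := by
            apply hbij.1
            apply Subtype.ext
            change QuotientGroup.mk' (Subgroup.zpowers d') d' = QuotientGroup.mk' _ (1 : cent d)
            rw [map_one, QuotientGroup.mk'_apply, QuotientGroup.eq_one_iff]
            exact Subgroup.mem_zpowers d'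
          exact hd1 (congrArg (fun c : DH => (c.1 : G)) h7)
        omega
      have hj1' : pr O (Subgroup.zpowers d') L.j * pr O (Subgroup.zpowers d') L.j =
          pr O (Subgroup.zpowers d') L.j := by rw [← map_mul, L.hj]
      obtain ⟨M1, hM1, hle⟩ := ih _ _ _ _ S1 _ hLQ hcard (pr O (Subgroup.zpowers d') L.j) hj1'
        (by rw [← map_mul, L.hjB]) (by rw [hS1]; exact L.hj1)
        (push (Subgroup.zpowers d') (fun v : cent d => w v)) (push_class _ hwH)
      have hZ2 : IsPGroup 2 (Subgroup.zpowers d') := hLH.hD.to_le hZD
      have h8 := wsum_quot h2 (Subgroup.zpowers d') hcen hZ2 L.j L.hj _ hwH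
      have h9 : M1 = M' := by
        have : (M1 : ℂ) = M' := by
          rw [← hM1, ← hM', ← h8]
        exact_mod_cast this
      rw [← h9]
      refine le_trans (le_of_eq ?_) hle
      have h10 := push_sum (Subgroup.zpowers d') DH hZD (fun v : cent d => w v) ⟨t, htd⟩
      rw [h10]
      symm
      refine Finset.sum_bij (fun (u : DH) _ => (⟨(u : cent d), Subgroup.mem_subgroupOf.1 u.2⟩ : D))
        ?_ ?_ ?_ ?_
      · intro u _
        exact Finset.mem_univ _
      · intro a _ b _ h
        apply Subtype.ext
        apply Subtype.ext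
        exact congrArg (fun c : D => (c : G)) h
      · intro u _
        exact ⟨⟨⟨u.1, Subgroup.mem_centralizer_singleton_iff.2 (hdc _ u.2)⟩,
          Subgroup.mem_subgroupOf.2 u.2⟩, Finset.mem_univ _, rfl⟩
      · intro u _
        rfl

end Pool.Agent.Helper32.NO
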