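import Pool.Agent.Helper32.NO.Defs

/-!
# The weighted sums as trace functions
-/

set_option autoImplicit false
open scoped BigOperators MonoidAlgebra
open Classical

namespace Pool.Agent.Helper32.NO

open Pool.Agent.Helper36.NB Pool.Agent.Helper44.S3 Pool.Agent.Helper32.ND

variable {O : ValuationSubring ℂ} {G : Type} [Group G] [Fintype G]

theorem wc_conj (w : G → ℕ) (hw : ClassFun w) (g h : G) : wc w (g * h * g⁻¹) = wc w h := by
  unfold wc
  symm
  refine Finset.sum_bij (fun v _ => g * v * g⁻¹) ?_ ?_ ?_ ?_
  · intro v _
    exact Finset.mem_univ _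
  · intro v _ v' _ hv
    exact mul_left_cancel (mul_right_cancel hv)
  · intro v _
    exact ⟨g⁻¹ * v * g, Finset.mem_univ _, by group⟩
  · intro v _
    rw [hw g v]
    refine if_congr ?_ rfl rfl
    have h1 : g * v * g⁻¹ * (g * h * g⁻¹) = g * (v * h) * g⁻¹ := by group
    have h3 : g * h * g⁻¹ * (g * v * g⁻¹) = g * (h * v) * g⁻¹ := by group
    rw [h1, h3]
    constructor
    · intro h4
      rw [h4]
    · intro h4
      exact mul_left_cancel (mul_right_cancel h4)

/-- P0 -/
theorem exists_wT (O : ValuationSubring ℂ) (w : G → ℕ) (hw : ClassFun w) :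
    ∃ T : TraceFun O G, ∀ x, T.f x = wsum O w x := by
  have hadd : ∀ x y : MonoidAlgebra O G, wsum O w (x + y) = wsum O w x + wsum O w y := by
    intro x y
    unfold wsum
    rw [← Finset.sum_add_distrib]
    refine Finset.sum_congr rfl fun h _ => ?_
    rw [MonoidAlgebra.coeff_add, Finsupp.add_apply, ← add_mul]
    rfl
  have hs : ∀ (g : G) (r : O), wsum O w (MonoidAlgebra.single g r) = (r : ℂ) * (wc w g : ℂ) := by
    intro g r
    unfold wsum
    rw [Finset.sum_eq_single g]
    · rw [MonoidAlgebra.coeff_single, Finsupp.single_eq_same]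
    · intro b _ hb
      rw [MonoidAlgebra.coeff_single, Finsupp.single_eq_of_ne hb]
      simp
    · intro h
      exact absurd (Finset.mem_univ _) h
  have h0 : wsum O w (0 : MonoidAlgebra O G) = 0 := by
    unfold wsum
    refine Finset.sum_eq_zero fun h _ => ?_
    simp
  refine ⟨{
    f :=
      { toFun := fun x => wsum O w x
        map_add' := hadd
        map_smul' := ?_ }
    comm := ?_ }, fun x => rfl⟩
  · intro c x
    rw [RingHom.id_apply]
    unfold wsum
    have h3 : ∀ z : ℂ, c • z = (c : ℂ) * z := fun z => rfl
    rw [h3, Finset.mul_sum]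
    refine Finset.sum_congr rfl fun h _ => ?_
    rw [MonoidAlgebra.coeff_smul, Finsupp.smul_apply, smul_eq_mul, ← mul_assoc]
    rfl
  · intro a b
    change wsum O w (a * b) = wsum O w (b * a)
    induction a using MonoidAlgebra.induction_linear with
    | zero => rw [zero_mul, mul_zero]
    | add x y hx hy => rw [add_mul, mul_add, hadd, hadd, hx, hy]
    | single g r =>
      induction b using MonoidAlgebra.induction_linear with
      | zero => rw [zero_mul, mul_zero]
      | add x y hx hy => rw [mul_add, add_mul, hadd, hadd, hx, hy]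
      | single h s =>
        rw [MonoidAlgebra.single_mul_single, MonoidAlgebra.single_mul_single, hs, hs,
          mul_comm r s]
        have h3 := wc_conj w hw g (h * g)
        have h4 : g * (h * g) * g⁻¹ = g * h := by group
        rw [h4] at h3
        rw [h3]

end Pool.Agent.Helper32.NO
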