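import Pool.Agent.Helper32.NO.Defs
import Pool.Agent.Helper32.NO.WT

/-!
# The orbit-wise identity in terms of the weighted sums
-/

set_option autoImplicit false
open scoped BigOperators MonoidAlgebra
open Classical

namespace Pool.Agent.Helper32.NO

open Pool.Agent.Helper36.NB Pool.Agent.Helper44.S3 Pool.Agent.Helper32.ND

variable {O : ValuationSubring ℂ} {G : Type} [Group G] [Fintype G]

/-- A class function with the centralisers: the sum over the elements commuting with a
conjugate. -/
theorem sum_cset_conj (f : G → ℂ) (hf : ∀ g v, f (g * v * g⁻¹) = f v) (u g : G) :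
    ∑ s ∈ cset (g * u * g⁻¹), f s = ∑ s ∈ cset u, f s := by
  symm
  refine Finset.sum_bij (fun s _ => g * s * g⁻¹) ?_ ?_ ?_ ?_
  · intro s hs
    rw [mem_cset] at hs ⊢
    calc g * s * g⁻¹ * (g * u * g⁻¹) = g * (s * u) * g⁻¹ := by group
      _ = g * u * g⁻¹ * (g * s * g⁻¹) := by rw [hs]; group
  · intro s _ s' _ h
    exact mul_left_cancel (mul_right_cancel h)
  · intro s hs
    rw [mem_cset] at hs
    refine ⟨g⁻¹ * s * g, ?_, by group⟩
    rw [mem_cset]
    calc g⁻¹ * s * g * u = g⁻¹ * (s * (g * u * g⁻¹)) * g := by group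
      _ = u * (g⁻¹ * s * g) := by rw [hs]; group
  · intro s _
    exact (hf g s).symm

/-- A sum over the group with a conjugate of `u`. -/
theorem sum_conj_class (F : G → ℂ) (u : G) :
    ∑ g : G, F (g⁻¹ * u * g) = ((cset u).card : ℂ) * ∑ v : G, if IsConj u v then F v else 0 := by
  have h1 : ∀ g : G, F (g⁻¹ * u * g) = ∑ v : G, if g⁻¹ * u * g = v then F v else 0 := by
    intro g
    rw [Finset.sum_ite_eq Finset.univ, if_pos (Finset.mem_univ _)]
  rw [Finset.sum_congr rfl fun g _ => h1 g, Finset.sum_comm, Finset.mul_sum]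
  refine Finset.sum_congr rfl fun v _ => ?_
  by_cases hv : IsConj u v
  · rw [if_pos hv]
    obtain ⟨c, hc⟩ := isConj_iff.1 hv
    rw [← Finset.sum_filter, Finset.sum_const, nsmul_eq_mul]
    congr 2
    symm
    refine Finset.card_bij (fun s _ => s * c⁻¹) ?_ ?_ ?_
    · intro s hs
      rw [mem_cset] at hs
      rw [Finset.mem_filter]
      refine ⟨Finset.mem_univ _, ?_⟩
      rw [← hc]
      calc (s * c⁻¹)⁻¹ * u * (s * c⁻¹) = c * (s⁻¹ * (u * s)) * c⁻¹ := by group
        _ = c * u * c⁻¹ := by rw [← hs]; group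
    · intro s _ s' _ h
      exact mul_right_cancel h
    · intro g hg
      rw [Finset.mem_filter] at hg
      refine ⟨g * c, ?_, by group⟩
      rw [mem_cset]
      have h3 := hg.2
      rw [← hc] at h3
      calc g * c * u = g * (c * u * c⁻¹) * c := by group
        _ = u * (g * c) := by rw [← h3]; group
  · rw [if_neg hv, mul_zero]
    refine Finset.sum_eq_zero fun g _ => ?_
    rw [if_neg]
    intro h
    exact hv (isConj_iff.2 ⟨g⁻¹, by rw [← h]; group⟩)

/-- P10b: the orbit-wise identity in terms of `wsum` -/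
theorem orb_of_wsum (h2 : (2 : O) ∈ IsLocalRing.maximalIdeal O) (e : MonoidAlgebra O G)
    (ee : e * e = e) (ec : ∀ a, a * e = e * a) (S : SimpleQuot (toK O G e))
    (j : MonoidAlgebra O G) (hj : j * j = j) (hje : j * e = j)
    (hj1 : (S.ρ (toK O G j)).rank = 1) (D E : Subgroup G) (u : G)
    (h : wsum O (fun v : G => if IsConj u v then 1 else 0) j =
      (Nat.card {y : G // y ∈ E ∧ y ∉ D ∧ IsConj u y} : ℂ)) : Orb O e S.n D E u := by
  have hc1 : ClassFun (fun v : G => if IsConj u v then 1 else 0) := by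
    intro g v
    refine if_congr ?_ rfl rfl
    exact ⟨fun h => h.trans (isConj_iff.2 ⟨g⁻¹, by group⟩),
      fun h => h.trans (isConj_iff.2 ⟨g, rfl⟩)⟩
  obtain ⟨T, hT⟩ := exists_wT O _ hc1
  have hTe : T.f e = (S.n : ℂ) * T.f j := by
    have h1 := trace_rank O e ee ec S j hj hje hj1 e ee ee T
    rw [S.one, Matrix.rank_one, Fintype.card_fin] at h1
    exact h1
  rw [hT, hT, h] at hTe
  have hcl : ∀ g v : G, (e.coeff (g * v * g⁻¹) : ℂ) = (e.coeff v : ℂ) := by
    intro g v
    congr 1
    have h1 := congrArg (fun a : MonoidAlgebra O G => a.coeff (g * v)) (ec (el O g))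
    simp only [el_mul_coeff, mul_el_coeff] at h1
    rw [inv_mul_cancel_left] at h1
    exact h1.symm
  -- the value at `e`
  have hwe : wsum O (fun v : G => if IsConj u v then 1 else 0) e =
      ∑ v : G, if IsConj u v then ∑ s ∈ cset u, (e.coeff s : ℂ) else 0 := by
    have h1 : ∀ s v : G, (e.coeff s : ℂ) * (((if v * s = s * v then
        (if IsConj u v then 1 else 0) else 0 : ℕ)) : ℂ) =
        if IsConj u v then (if s * v = v * s then (e.coeff s : ℂ) else 0) else 0 := by
      intro s v
      by_cases hs : v * s = s * v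
      · by_cases hv : IsConj u v
        · rw [if_pos hs, if_pos hv, if_pos hv, if_pos hs.symm, Nat.cast_one, mul_one]
        · rw [if_pos hs, if_neg hv, if_neg hv, Nat.cast_zero, mul_zero]
      · have hs' : ¬ s * v = v * s := fun h => hs h.symm
        rw [if_neg hs, if_neg hs', ite_self, Nat.cast_zero, mul_zero]
    unfold wsum wc
    have h3 : ∀ s : G, (e.coeff s : ℂ) * ((∑ v : G, (if v * s = s * v then
        (if IsConj u v then 1 else 0) else 0) : ℕ) : ℂ) =
        ∑ v : G, if IsConj u v then (if s * v = v * s then (e.coeff s : ℂ) else 0) else 0 := by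
      intro s
      rw [Nat.cast_sum, Finset.mul_sum]
      exact Finset.sum_congr rfl fun v _ => h1 s v
    rw [Finset.sum_congr rfl fun s _ => h3 s, Finset.sum_comm]
    refine Finset.sum_congr rfl fun v _ => ?_
    by_cases hv : IsConj u v
    · simp only [if_pos hv]
      obtain ⟨c, hc⟩ := isConj_iff.1 hv
      rw [← sum_cset, ← hc]
      exact sum_cset_conj (fun s => (e.coeff s : ℂ)) hcl u c
    · simp only [if_neg hv, Finset.sum_const_zero]
  rw [hwe] at hTe
  have hG : (Nat.card G : ℂ) = ((cset u).card : ℂ) * ∑ v : G, if IsConj u v then 1 else 0 := by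
    rw [← sum_conj_class (fun _ => 1) u, Finset.sum_const, Finset.card_univ, nsmul_eq_mul,
      mul_one, Nat.card_eq_fintype_card]
  have hR : (Nat.card {g : G // g⁻¹ * u * g ∈ E ∧ g⁻¹ * u * g ∉ D} : ℂ) =
      ((cset u).card : ℂ) * (Nat.card {y : G // y ∈ E ∧ y ∉ D ∧ IsConj u y} : ℂ) := by
    have h1 := sum_conj_class (fun v : G => if v ∈ E ∧ v ∉ D then (1 : ℂ) else 0) u
    have h3 : (Nat.card {g : G // g⁻¹ * u * g ∈ E ∧ g⁻¹ * u * g ∉ D} : ℂ) =
        ∑ g : G, if g⁻¹ * u * g ∈ E ∧ g⁻¹ * u * g ∉ D then (1 : ℂ) else 0 := by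
      rw [← Finset.sum_filter, Finset.sum_const, nsmul_eq_mul, mul_one,
        Nat.card_eq_fintype_card, Fintype.card_subtype]
    have h4 : (Nat.card {y : G // y ∈ E ∧ y ∉ D ∧ IsConj u y} : ℂ) =
        ∑ v : G, if IsConj u v then (if v ∈ E ∧ v ∉ D then (1 : ℂ) else 0) else 0 := by
      have h5 : ∀ v : G, (if IsConj u v then (if v ∈ E ∧ v ∉ D then (1 : ℂ) else 0) else 0) =
          if v ∈ E ∧ v ∉ D ∧ IsConj u v then (1 : ℂ) else 0 := by
        intro v
        by_cases hv : IsConj u v
        · rw [if_pos hv]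
          refine if_congr ?_ rfl rfl
          tauto
        · rw [if_neg hv, if_neg (fun h => hv h.2.2)]
      rw [Finset.sum_congr rfl fun v _ => h5 v, ← Finset.sum_filter, Finset.sum_const,
        nsmul_eq_mul, mul_one, Nat.card_eq_fintype_card, Fintype.card_subtype]
    rw [h3, h4, h1]
  rw [orb_iff, hG, hR]
  have h6 : (∑ v : G, if IsConj u v then ∑ s ∈ cset u, (e.coeff s : ℂ) else 0) =
      (∑ v : G, if IsConj u v then (1 : ℂ) else 0) * ∑ s ∈ cset u, (e.coeff s : ℂ) := by
    rw [Finset.sum_mul]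
    refine Finset.sum_congr rfl fun v _ => ?_
    split_ifs
    · rw [one_mul]
    · rw [zero_mul]
  rw [h6] at hTe
  rw [mul_assoc, hTe]
  ring

end Pool.Agent.Helper32.NO
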