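import Pool.Agent.Helper32.NO.Main
import Pool.Agent.Helper44.NO.P9
import Pool.Agent.Helper32.NO.OrbW
import Pool.Agent.Helper28.NO.Total

/-!
# The orbit-wise identity for nilpotent blocks
-/

set_option autoImplicit false
open scoped BigOperators MonoidAlgebra
open Classical

namespace Pool.Agent.Helper32.NO

open Pool.Agent.Helper36.NB Pool.Agent.Helper44.S3 Pool.Agent.Helper32.ND
open Pool.Agent.Helper28.NO (total)
open Pool.Agent.Helper44.NO (exists_lev elements_of_pairs)

variable {O : ValuationSubring ℂ} {G : Type} [Group G] [Fintype G]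

theorem prim_of_rank_one (e : MonoidAlgebra O G) (ec : ∀ a, a * e = e * a)
    (S : SimpleQuot (toK O G e)) (j : MonoidAlgebra O G) (hj : j * j = j) (hje : j * e = j)
    (hj1 : (S.ρ (toK O G j)).rank = 1) : IsPrimitiveIdem j := by
  refine ⟨?_, hj, ?_⟩
  · rintro rfl
    rw [map_zero, map_zero, Matrix.rank_zero] at hj1
    exact zero_ne_one hj1
  · intro f hf hfj hjf
    have hfe : f * e = f := by rw [← hfj, mul_assoc, hje]
    have hsub : (j - f) * (j - f) = j - f := by
      rw [sub_mul, mul_sub, mul_sub, hj, hjf, hfj, hf]; abel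
    have hsube : (j - f) * e = j - f := by rw [sub_mul, hje, hfe]
    have hF : S.ρ (toK O G f) * S.ρ (toK O G f) = S.ρ (toK O G f) := by
      rw [← map_mul, ← map_mul, hf]
    have hG : S.ρ (toK O G (j - f)) * S.ρ (toK O G (j - f)) = S.ρ (toK O G (j - f)) := by
      rw [← map_mul, ← map_mul, hsub]
    have hFG : S.ρ (toK O G f) * S.ρ (toK O G (j - f)) = 0 := by
      rw [← map_mul, ← map_mul, mul_sub, hfj, hf, sub_self, map_zero, map_zero]
    have hGF : S.ρ (toK O G (j - f)) * S.ρ (toK O G f) = 0 := by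
      rw [← map_mul, ← map_mul, sub_mul, hjf, hf, sub_self, map_zero, map_zero]
    have hadd := Pool.Agent.Helper36.NB.C1aux.rank_add_orth _ _ hF hG hFG hGF
    rw [← map_add, ← map_add, add_sub_cancel, hj1] at hadd
    rcases Nat.eq_zero_or_pos (S.ρ (toK O G f)).rank with h0 | h0
    · left
      exact Pool.Agent.Helper36.NB.C1aux.eq_zero_of_rho O S hf hfe (Pool.Agent.Helper36.NB.C1aux.rank_eq_zero' _ h0)
    · right
      have h1 : (S.ρ (toK O G (j - f))).rank = 0 := by omega
      have h2 := Pool.Agent.Helper36.NB.C1aux.eq_zero_of_rho O S hsub hsube (Pool.Agent.Helper36.NB.C1aux.rank_eq_zero' _ h1)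
      exact (sub_eq_zero.1 h2).symm

theorem wsum_add (w w' : G → ℕ) (x : MonoidAlgebra O G) :
    wsum O (fun v => w v + w' v) x = wsum O w x + wsum O w' x := by
  unfold wsum
  rw [← Finset.sum_add_distrib]
  apply Finset.sum_congr rfl
  intro h _
  rw [← mul_add]
  congr 1
  unfold wc
  rw [← Nat.cast_add, ← Finset.sum_add_distrib]
  congr 1
  apply Finset.sum_congr rfl
  intro v _
  split_ifs <;> rfl

/-- the sum over the coset `t D` is the sum over `E ∖ D` -/
theorem coset_card {x : G} {D E : Subgroup G} (h : IsDefectPair x D E) {t : G}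
    (ht : t ∈ E) (ht' : t ∉ D) (P : G → Prop) :
    ∑ u : D, (if P (t * u) then 1 else 0) = Nat.card {y : G // y ∈ E ∧ y ∉ D ∧ P y} := by
  have h1 := sum_ext h ht ht' (fun y => if P y then (1 : ℂ) else 0)
  have h3 : (Nat.card {y : G // y ∈ E ∧ y ∉ D ∧ P y} : ℂ) =
      ∑ y ∈ Finset.univ.filter (fun y : G => y ∈ E ∧ y ∉ D), if P y then (1 : ℂ) else 0 := by
    rw [← Finset.sum_filter, Finset.filter_filter, Finset.sum_const, nsmul_eq_mul, mul_one,
      Nat.card_eq_fintype_card, Fintype.card_subtype]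
    congr 2
    ext y
    simp only [Finset.mem_filter, Finset.mem_univ, true_and]
    tauto
  have h4 : ((∑ u : D, (if P (t * u) then 1 else 0) : ℕ) : ℂ) =
      (Nat.card {y : G // y ∈ E ∧ y ∉ D ∧ P y} : ℂ) := by
    rw [h3, h1]
    push_cast
    rfl
  exact_mod_cast h4

theorem orb_nilpotent (h2 : (2 : O) ∈ IsLocalRing.maximalIdeal O) (e : MonoidAlgebra O G)
    (he : IsBlock e) (her : inv' e = e) (S : SimpleQuot (toK O G e)) (x : G)
    (hx : IsDefectClass O e x) (D E : Subgroup G) (hDE : IsDefectPair x D E) (hne : D ≠ E)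
    (hnil : NilpotentPairs D (toK O G e)) (u : G) (hu : u * u = 1) : Orb O e S.n D E u := by
  obtain ⟨t, ht, ht'⟩ := exists_t hDE hne
  obtain ⟨q, hL⟩ := exists_lev h2 e he her S x hx D E hDE t ht ht' hnil
  obtain ⟨j, hj, hje, hj1⟩ := exists_rank_one O e hL.ee hL.ec S
  have hprim := prim_of_rank_one e hL.ec S j hj hje hj1
  obtain ⟨I⟩ := exists_irrData G
  obtain ⟨J⟩ := exists_irrData D
  have htot := (block_main O h2 e he her x hx D E hDE hne (elements_of_pairs hnil) I J).2 j
    hprim hje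
  rw [total h2 e hL.ee hL.ec S j hprim hje] at htot
  -- the two class functions
  have hc1 : ClassFun (fun v : G => if IsConj u v then 1 else 0) := by
    intro g v
    refine if_congr ?_ rfl rfl
    exact ⟨fun h => h.trans (isConj_iff.2 ⟨g⁻¹, by group⟩),
      fun h => h.trans (isConj_iff.2 ⟨g, rfl⟩)⟩
  have hsq : ∀ g v : G, (g * v * g⁻¹) * (g * v * g⁻¹) = 1 ↔ v * v = 1 := by
    intro g v
    have h5 : (g * v * g⁻¹) * (g * v * g⁻¹) = g * (v * v) * g⁻¹ := by group
    rw [h5]
    constructor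
    · intro h
      calc v * v = g⁻¹ * (g * (v * v) * g⁻¹) * g := by group
        _ = 1 := by rw [h]; group
    · intro h
      rw [h]; group
  have hc2 : ClassFun (fun v : G => if v * v = 1 ∧ ¬ IsConj u v then 1 else 0) := by
    intro g v
    refine if_congr ?_ rfl rfl
    rw [hsq]
    refine and_congr Iff.rfl (not_congr ?_)
    exact ⟨fun h => h.trans (isConj_iff.2 ⟨g⁻¹, by group⟩),
      fun h => h.trans (isConj_iff.2 ⟨g, rfl⟩)⟩
  obtain ⟨M1, hM1, hN1⟩ := main_le O h2 _ G D t e S q hL le_rfl j hj hje hj1 _ hc1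
  obtain ⟨M2, hM2, hN2⟩ := main_le O h2 _ G D t e S q hL le_rfl j hj hje hj1 _ hc2
  have hadd : wsum O (fun v : G => if v * v = 1 then 1 else 0) j = (M1 : ℂ) + M2 := by
    rw [← hM1, ← hM2, ← wsum_add]
    congr 1
    funext v
    by_cases h1 : IsConj u v
    · obtain ⟨g, hg⟩ := isConj_iff.1 h1
      have h3 : v * v = 1 := by
        rw [← hg]
        exact (hsq g u).2 hu
      rw [if_pos h3, if_pos h1, if_neg (fun h => h.2 h1)]
    · by_cases h3 : v * v = 1
      · rw [if_pos h3, if_neg h1, if_pos ⟨h3, h1⟩]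
      · rw [if_neg h3, if_neg h1, if_neg (fun h => h3 h.1)]
  have hN1' := coset_card hDE ht ht' (fun v => IsConj u v)
  have hN2' := coset_card hDE ht ht' (fun v => v * v = 1 ∧ ¬ IsConj u v)
  have hN' := coset_card hDE ht ht' (fun v => v * v = 1)
  have hsum : Nat.card {y : G // y ∈ E ∧ y ∉ D ∧ IsConj u y} +
      Nat.card {y : G // y ∈ E ∧ y ∉ D ∧ (y * y = 1 ∧ ¬ IsConj u y)} =
      Nat.card {y : G // y ∈ E ∧ y ∉ D ∧ y * y = 1} := by
    rw [← hN1', ← hN2', ← hN', ← Finset.sum_add_distrib]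
    apply Finset.sum_congr rfl
    intro y _
    by_cases h1 : IsConj u (t * y)
    · obtain ⟨g, hg⟩ := isConj_iff.1 h1
      have h3 : (t * (y : G)) * (t * y) = 1 := by
        rw [← hg]
        exact (hsq g u).2 hu
      rw [if_pos h3, if_pos h1, if_neg (fun h => h.2 h1)]
    · by_cases h3 : (t * (y : G)) * (t * y) = 1
      · rw [if_pos h3, if_neg h1, if_pos ⟨h3, h1⟩]
      · rw [if_neg h3, if_neg h1, if_neg (fun h => h3 h.1)]
  have htot' : M1 + M2 = Nat.card {y : G // y ∈ E ∧ y ∉ D ∧ y * y = 1} := by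
    rw [hadd] at htot
    exact_mod_cast htot
  have hM1N : M1 = Nat.card {y : G // y ∈ E ∧ y ∉ D ∧ IsConj u y} := by
    have hN1'' : Nat.card {y : G // y ∈ E ∧ y ∉ D ∧ IsConj u y} ≤ M1 := by
      rw [← hN1']; convert hN1
    have hN2'' : Nat.card {y : G // y ∈ E ∧ y ∉ D ∧ (y * y = 1 ∧ ¬ IsConj u y)} ≤ M2 := by
      rw [← hN2']; convert hN2
    omega
  apply orb_of_wsum h2 e hL.ee hL.ec S j hj hje hj1 D E u
  rw [hM1, hM1N]

end Pool.Agent.Helper32.NO
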