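import Mathlib
import Pool.Agent.Helper32.NO.Orb

/-!
# Conjecture C of Sambale and its orbit-wise refinement for real nilpotent blocks

The Frobenius-Schur indicator of the projective indecomposable character `Φ` of a real
non-principal nilpotent `2`-block of an arbitrary finite group is the number of involutions in
`E ∖ D`, where `(D, E)` is the defect pair; and for every `u` with `u² = 1` the multiplicity of
the trivial character in the restriction of `Φ` to `C_G(u)` is the number of the conjugates of
`u` in `E ∖ D`.
-/

open scoped BigOperators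
open Classical

namespace Pool.Agent.Helper32.NO.OrbFull

open Pool.Agent.Helper36.NB Pool.Agent.Helper44.S3 Pool.Agent.Helper32.NO

theorem main (O : ValuationSubring ℂ) (h2 : (2 : O) ∈ IsLocalRing.maximalIdeal O)
    {G : Type} [Group G] [Fintype G]
    -- a real block `e` of `O[G]`
    (e : MonoidAlgebra O G) (he : IsBlock e) (her : inv' e = e)
    -- with defect pair `(D, E)`, `D ≠ E`
    (x : G) (hx : IsDefectClass O e x) (D E : Subgroup G) (hDE : IsDefectPair x D E)
    (hne : D ≠ E)
    -- the block is nilpotent
    (hnil : NilpotentPairs D (toK O G e))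
    -- the projective indecomposable module `O[G] j` of the block
    (j : MonoidAlgebra O G) (hj : IsPrimitiveIdem j) (hje : j * e = j) :
    ((∑ g : G, pim O j (g * g)) / (Nat.card G : ℂ) =
      (Nat.card {y : G // y ∈ E ∧ y ∉ D ∧ y * y = 1} : ℂ)) ∧
    -- the orbit-wise identity
    ∀ u : G, u * u = 1 → (∑ s : cent u, pim O j s) / (Nat.card (cent u) : ℂ) =
      (Nat.card {y : G // y ∈ E ∧ y ∉ D ∧ IsConj u y} : ℂ) := by
  obtain ⟨he0, hee, hec, -⟩ := id he
  have : IsAlgClosed (resK O) := resK_isAlgClosed O
  have hc0 : toK O G e ≠ 0 := fun h => he0 (idem_eq_zero O hee h)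
  obtain ⟨S⟩ := simpleQuot_of_oneSimple (toK O G e) hc0 (by rw [← map_mul, hee])
    (fun y => by
      obtain ⟨y', rfl⟩ := toK_surjective O y
      rw [← map_mul, ← map_mul, hec]) hnil.simple
  exact final_of_orb O h2 e hee hec S j hj hje D E
    (orb_nilpotent h2 e he her S x hx D E hDE hne hnil)

end Pool.Agent.Helper32.NO.OrbFull
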